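import Mathlib

set_option autoImplicit false
set_option linter.unusedSectionVars false
open Finset

namespace Pool.Agent.H.MP_1195b1_lc

variable {ι : Type} [DecidableEq ι]

def Skew (S : Finset ι) (p : Finset ι → ℤ) : Prop :=
  ∀ X ⊆ S, ∀ Y ⊆ S, p X + p Y ≤ p (X ∩ Y) + p (X ∪ Y) ∨ p X + p Y ≤ p (X \ Y) + p (Y \ X)

def Bnd (S : Finset ι) (p : Finset ι → ℤ) (k : ℕ) : Prop :=
  ∀ X ⊆ S, p X ≤ X.card ∧ p X ≤ k

def Cov (S : Finset ι) (p : Finset ι → ℤ) (W : Finset ι) (m : ℕ) : Prop :=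
  ∀ X ⊆ S, p X ≤ (X ∩ W).card + m

def Tight (S : Finset ι) (p : Finset ι → ℤ) (W : Finset ι) (m : ℕ) (X : Finset ι) : Prop :=
  X ⊆ S ∧ p X = (X ∩ W).card + m

def Q (S : Finset ι) (p : Finset ι → ℤ) (m1 m2 : ℕ) (Z : Finset ι) : Prop :=
  Z ⊆ S ∧ Cov S p Z m2 ∧ Cov S p (S \ Z) m1

theorem split1 (X Y W : Finset ι) :
    (X ∩ W).card = ((X \ Y) ∩ W).card + ((X ∩ Y) ∩ W).card := by
  rw [← card_union_of_disjoint (by rw [disjoint_left]; intro a; simp; tauto)]
  congr 1; ext a; simp; tauto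

theorem split2 (X Y W : Finset ι) :
    (Y ∩ W).card = ((Y \ X) ∩ W).card + ((X ∩ Y) ∩ W).card := by
  rw [split1 Y X W, inter_comm Y X]

theorem split3 (X Y W : Finset ι) :
    ((X ∪ Y) ∩ W).card = ((X \ Y) ∩ W).card + ((Y \ X) ∩ W).card + ((X ∩ Y) ∩ W).card := by
  rw [← card_union_of_disjoint (by rw [disjoint_left]; intro a; simp; tauto),
    ← card_union_of_disjoint (by rw [disjoint_left]; intro a; simp; tauto)]
  congr 1; ext a; simp; tauto

theorem Cov.mono {S : Finset ι} {p : Finset ι → ℤ} {W W' : Finset ι} {m : ℕ} (h : Cov S p W m)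
    (hW : W ⊆ W') : Cov S p W' m := fun X hX => by
  have := h X hX
  have h2 : (X ∩ W).card ≤ (X ∩ W').card := card_le_card (inter_subset_inter_left hW)
  omega

section
variable {S : Finset ι} {p : Finset ι → ℤ} {W W' : Finset ι} {m m' : ℕ}

theorem uncross (hs : Skew S p) (hc : Cov S p W m) {X Y : Finset ι} (hX : Tight S p W m X)
    (hY : Tight S p W m Y) :
    (Tight S p W m (X ∩ Y) ∧ Tight S p W m (X ∪ Y)) ∨
      (X ∩ Y ∩ W = ∅ ∧ Tight S p W m (X \ Y) ∧ Tight S p W m (Y \ X)) := by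
  have h1 := split1 X Y W
  have h2 := split2 X Y W
  have h3 := split3 X Y W
  have a1 := hc (X ∩ Y) (inter_subset_left.trans hX.1)
  have a2 := hc (X ∪ Y) (union_subset hX.1 hY.1)
  have a3 := hc (X \ Y) (sdiff_subset.trans hX.1)
  have a4 := hc (Y \ X) (sdiff_subset.trans hY.1)
  have b1 := hX.2
  have b2 := hY.2
  rcases hs X hX.1 Y hY.1 with h | h
  · exact Or.inl ⟨⟨inter_subset_left.trans hX.1, by omega⟩, union_subset hX.1 hY.1, by omega⟩
  · exact Or.inr ⟨card_eq_zero.1 (by omega), ⟨sdiff_subset.trans hX.1, by omega⟩,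
      sdiff_subset.trans hY.1, by omega⟩

theorem cover (hs : Skew S p) (hc : Cov S p W m) (d : ι → ℤ)
    (hd : ∀ X, Tight S p W m X → ∑ x ∈ X, d x ≤ 0) {V A : Finset ι} (hV : V ⊆ W)
    (h : ∀ v ∈ V, ∃ X, Tight S p W m X ∧ v ∈ X ∧ Disjoint X A) :
    ∃ T ⊆ S, V ⊆ T ∧ Disjoint T A ∧ ∑ x ∈ T, d x ≤ 0 := by
  have key : ∀ n : ℕ, ∀ F : Finset (Finset ι), ∑ X ∈ F, X.card = n →
      (∀ X ∈ F, Tight S p W m X ∧ Disjoint X A) → (∀ v ∈ V, ∃ X ∈ F, v ∈ X) →
      ∃ T ⊆ S, V ⊆ T ∧ Disjoint T A ∧ ∑ x ∈ T, d x ≤ 0 := by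
    intro n
    induction n using Nat.strong_induction_on with
    | _ n ih =>
    intro F hn hF hcov
    by_cases hdis : (F : Set (Finset ι)).PairwiseDisjoint id
    · refine ⟨F.biUnion id, biUnion_subset.2 (fun X hX => (hF X hX).1.1), fun v hv => ?_, ?_, ?_⟩
      · obtain ⟨X, hX, hv⟩ := hcov v hv
        exact mem_biUnion.2 ⟨X, hX, hv⟩
      · rw [disjoint_biUnion_left]; exact fun X hX => (hF X hX).2
      · rw [sum_biUnion hdis]; exact sum_nonpos (fun X hX => hd X (hF X hX).1)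
    · obtain ⟨X, hX, Y, hY, hne, hXY⟩ : ∃ X ∈ F, ∃ Y ∈ F, X ≠ Y ∧ ¬ Disjoint X Y := by
        by_contra hcon
        push Not at hcon
        exact hdis (fun X hX Y hY hne => hcon X hX Y hY hne)
      have hpos : 0 < (X ∩ Y).card := card_pos.2 (not_disjoint_iff_nonempty_inter.1 hXY)
      have step : ∀ G : Finset (Finset ι), (∀ T ∈ G, Tight S p W m T ∧ T ⊆ X ∪ Y) →
          (∀ v ∈ (X ∪ Y) ∩ W, ∃ T ∈ G, v ∈ T) → ∑ T ∈ G, T.card < X.card + Y.card →
          ∃ T ⊆ S, V ⊆ T ∧ Disjoint T A ∧ ∑ x ∈ T, d x ≤ 0 := by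
        intro G hG hGc hGs
        have e1 := add_sum_erase F card hX
        have e2 := add_sum_erase (F.erase X) card (mem_erase.2 ⟨hne.symm, hY⟩)
        have e3 := sum_union_inter (s₁ := G) (s₂ := (F.erase X).erase Y) (f := card)
        refine ih _ (by omega) (G ∪ (F.erase X).erase Y) rfl (fun T hT => ?_) (fun v hv => ?_)
        · rcases mem_union.1 hT with hT | hT
          · exact ⟨(hG T hT).1, Disjoint.mono_left (hG T hT).2
              (disjoint_union_left.2 ⟨(hF X hX).2, (hF Y hY).2⟩)⟩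
          · exact hF T (mem_of_mem_erase (mem_of_mem_erase hT))
        · obtain ⟨T, hT, hvT⟩ := hcov v hv
          by_cases h1 : T = X ∨ T = Y
          · obtain ⟨T', hT', hv'⟩ := hGc v (by
              rcases h1 with rfl | rfl <;> simp [hvT, hV hv])
            exact ⟨T', mem_union_left _ hT', hv'⟩
          · push Not at h1
            exact ⟨T, mem_union_right _ (by simp [h1, hT]), hvT⟩
      rcases uncross hs hc (hF X hX).1 (hF Y hY).1 with ⟨-, h2⟩ | ⟨h1, h2, h3⟩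
      · refine step {X ∪ Y} (by simpa using h2) (fun v hv => ⟨_, mem_singleton_self _,
          (mem_inter.1 hv).1⟩) ?_
        have := card_union_add_card_inter X Y
        rw [sum_singleton]; omega
      · refine step {X \ Y, Y \ X} ?_ (fun v hv => ?_) ?_
        · intro T hT
          rcases mem_insert.1 hT with rfl | hT
          · exact ⟨h2, sdiff_subset.trans subset_union_left⟩
          · rw [mem_singleton.1 hT]; exact ⟨h3, sdiff_subset.trans subset_union_right⟩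
        · have : v ∉ X ∩ Y ∩ W := by rw [h1]; simp
          simp only [mem_inter, mem_union] at this hv
          by_cases hvX : v ∈ X
          · exact ⟨X \ Y, by simp, mem_sdiff.2 ⟨hvX, by tauto⟩⟩
          · exact ⟨Y \ X, by simp, mem_sdiff.2 ⟨by tauto, hvX⟩⟩
        · have e1 := card_sdiff_add_card_inter X Y
          have e2 := card_sdiff_add_card_inter Y X
          have e3 : ∑ T ∈ ({X \ Y, Y \ X} : Finset (Finset ι)), T.card ≤
              (X \ Y).card + (Y \ X).card := by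
            by_cases he : X \ Y = Y \ X
            · rw [he]; simp
            · rw [sum_pair he]
          omega
  choose! g hg using h
  exact key _ (V.image g) rfl (fun X hX => by
    obtain ⟨v, hv, rfl⟩ := mem_image.1 hX
    exact ⟨(hg v hv).1, (hg v hv).2.2⟩) (fun v hv => ⟨_, mem_image_of_mem _ hv, (hg v hv).2.1⟩)

theorem card_compl_split {X : Finset ι} (hWW : Disjoint W W') (hS : S ⊆ W ∪ W') (hX : X ⊆ S) :
    X.card = (X ∩ W).card + (X ∩ W').card := by
  rw [← card_union_of_disjoint (hWW.mono inter_subset_right inter_subset_right),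
    ← inter_union_distrib_left, inter_eq_left.2 (hX.trans hS)]

theorem cross (hs : Skew S p) (hb : Bnd S p (m + m')) (hc : Cov S p W m) (hc' : Cov S p W' m')
    (hWW : Disjoint W W') (hS : S ⊆ W ∪ W') {X Y : Finset ι} (hX : Tight S p W m X)
    (hY : Tight S p W' m' Y) : Disjoint X Y ∨ ((X \ Y) ∩ W = ∅ ∧ (Y \ X) ∩ W' = ∅) := by
  have h1 := split1 X Y W
  have h2 := split2 X Y W'
  have h3 := card_compl_split hWW hS (inter_subset_left.trans hX.1 : X ∩ Y ⊆ S)
  have a1 := (hb (X ∩ Y) (inter_subset_left.trans hX.1)).1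
  have a2 := (hb (X ∪ Y) (union_subset hX.1 hY.1)).2
  have a3 := hc (X \ Y) (sdiff_subset.trans hX.1)
  have a4 := hc' (Y \ X) (sdiff_subset.trans hY.1)
  have b1 := hX.2
  have b2 := hY.2
  push_cast at a2
  rcases hs X hX.1 Y hY.1 with h | h
  · exact Or.inr ⟨card_eq_zero.1 (by omega), card_eq_zero.1 (by omega)⟩
  · exact Or.inl (disjoint_iff_inter_eq_empty.2 (card_eq_zero.1 (by omega)))

theorem half (hs : Skew S p) (hb : Bnd S p (m + m')) (hc : Cov S p W m) (hc' : Cov S p W' m')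
    (hWW : Disjoint W W') (hS : S ⊆ W ∪ W') (d : ι → ℤ)
    (hd : ∀ X, Tight S p W m X → ∑ x ∈ X, d x ≤ 0) {V A : Finset ι} (hV : V ⊆ W)
    (hbl : ∀ u ∈ A, ∀ v ∈ V, (∃ X, Tight S p W m X ∧ v ∈ X ∧ u ∉ X) ∨
      (∃ Y, Tight S p W' m' Y ∧ u ∈ Y ∧ v ∉ Y))
    (hcov : ∀ v ∈ V, ∃ X, Tight S p W m X ∧ v ∈ X) :
    ∃ T ⊆ S, V ⊆ T ∧ Disjoint T A ∧ ∑ x ∈ T, d x ≤ 0 := by
  refine cover hs hc d hd hV (fun v hv => ?_)
  obtain ⟨X, ⟨hX, hvX⟩, hmin⟩ := exists_minimalFor_of_wellFoundedLT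
    (fun X => Tight S p W m X ∧ v ∈ X) card (hcov v hv)
  refine ⟨X, hX, hvX, disjoint_left.2 (fun u huX huA => ?_)⟩
  rcases hbl u huA v hv with ⟨X', hX', h1, h2⟩ | ⟨Y, hY, h1, h2⟩
  · rcases uncross hs hc hX hX' with ⟨h3, -⟩ | ⟨h3, -⟩
    · have h4 : (X ∩ X').card < X.card := card_lt_card ⟨inter_subset_left, fun h =>
        h2 (mem_inter.1 (h huX)).2⟩
      have := hmin (j := X ∩ X') ⟨h3, mem_inter.2 ⟨hvX, h1⟩⟩ h4.le
      omega
    · have : v ∈ X ∩ X' ∩ W := by simp [hvX, h1, hV hv]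
      rw [h3] at this; simp at this
  · rcases cross hs hb hc hc' hWW hS hX hY with h3 | ⟨h3, -⟩
    · exact disjoint_left.1 h3 huX h1
    · have : v ∈ (X \ Y) ∩ W := by simp [hvX, h2, hV hv]
      rw [h3] at this; simp at this

/-- Removing `v` from `W` (and possibly adding more) can only be blocked by a tight set. -/
theorem block (hc : Cov S p W m) {W2 : Finset ι} {v : ι} (hW : W.erase v ⊆ W2)
    (h : ¬ Cov S p W2 m) : ∃ X, Tight S p W m X ∧ v ∈ X ∧ X ∩ W2 ⊆ W := by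
  simp only [Cov, not_forall, not_le] at h
  obtain ⟨X, hX, h⟩ := h
  have h1 := hc X hX
  have h2 : (X ∩ W).erase v ⊆ X ∩ W2 := fun a ha => by
    simp only [mem_erase, mem_inter] at ha ⊢
    exact ⟨ha.2.1, hW (mem_erase.2 ⟨ha.1, ha.2.2⟩)⟩
  have h3 := card_le_card h2
  have h4 : (X ∩ W).card ≤ ((X ∩ W).erase v).card + 1 := by
    have := pred_card_le_card_erase (s := X ∩ W) (a := v); omega
  have h5 : (X ∩ W).erase v = X ∩ W2 := eq_of_subset_of_card_le h2 (by omega)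
  refine ⟨X, ⟨hX, by omega⟩, ?_, ?_⟩
  · by_contra hv
    rw [erase_eq_of_notMem (by simp [hv])] at h3
    omega
  · rw [← h5]; exact (erase_subset _ _).trans inter_subset_right

end

/-- A (scaled) fractional point of the polytope. -/
structure Wit (S : Finset ι) (p : Finset ι → ℤ) (m1 m2 : ℕ) (K : ℤ) (z : ι → ℤ) : Prop where
  pos : 0 < K
  lo : ∀ x ∈ S, 0 ≤ z x
  hi : ∀ x ∈ S, z x ≤ K
  c2 : ∀ X ⊆ S, K * (p X - m2) ≤ ∑ x ∈ X, z x
  c1 : ∀ X ⊆ S, K * (p X - m1) ≤ K * X.card - ∑ x ∈ X, z x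

def dd (K : ℤ) (z : ι → ℤ) (Z : Finset ι) (x : ι) : ℤ := z x - if x ∈ Z then K else 0

theorem sum_dd (K : ℤ) (z : ι → ℤ) (Z X : Finset ι) :
    ∑ x ∈ X, dd K z Z x = ∑ x ∈ X, z x - K * (X ∩ Z).card := by
  simp only [dd, sum_sub_distrib]
  rw [← sum_filter, sum_const, filter_mem_eq_inter]; simp [mul_comm]

section
variable {S : Finset ι} {p : Finset ι → ℤ} {m1 m2 : ℕ} {K : ℤ} {z : ι → ℤ} {Z : Finset ι}

theorem dd_U (hw : Wit S p m1 m2 K z) (X : Finset ι) (hX : Tight S p (S \ Z) m1 X) :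
    ∑ x ∈ X, dd K z Z x ≤ 0 := by
  have h1 := hw.c1 X hX.1
  have h2 := card_compl_split (S := S) (W := S \ Z) (W' := Z) sdiff_disjoint
    (by rw [sdiff_union_self_eq_union]; exact subset_union_left) hX.1
  rw [sum_dd]
  have h3 := hX.2
  have : (X.card : ℤ) = (X ∩ (S \ Z)).card + (X ∩ Z).card := by exact_mod_cast h2
  rw [h3, this] at h1
  nlinarith

theorem dd_L (hw : Wit S p m1 m2 K z) (X : Finset ι) (hX : Tight S p Z m2 X) :
    ∑ x ∈ X, - dd K z Z x ≤ 0 := by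
  have h1 := hw.c2 X hX.1
  rw [sum_neg_distrib, sum_dd]
  have h3 := hX.2
  rw [h3] at h1
  nlinarith

theorem dd_neg (hw : Wit S p m1 m2 K z) {x : ι} (hx : x ∈ S) (hZ : x ∈ Z) : dd K z Z x ≤ 0 := by
  have := hw.hi x hx; simp [dd, hZ, this]

theorem dd_pos (hw : Wit S p m1 m2 K z) {x : ι} (hx : x ∈ S) (hZ : x ∉ Z) : 0 ≤ dd K z Z x := by
  have := hw.lo x hx; simp [dd, hZ, this]

theorem sum_le_of (d : ι → ℤ) {R T : Finset ι} (h1 : ∀ x ∈ R, x ∉ T → d x ≤ 0)
    (h2 : ∀ x ∈ T, x ∉ R → 0 ≤ d x) : ∑ x ∈ R, d x ≤ ∑ x ∈ T, d x := by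
  rw [← sum_sdiff (inter_subset_left : R ∩ T ⊆ R), ← sum_sdiff (inter_subset_right : R ∩ T ⊆ T),
    sdiff_inter_self_left, sdiff_inter_self_right]
  have a : ∑ x ∈ R \ T, d x ≤ 0 := sum_nonpos (fun x hx => h1 x (mem_sdiff.1 hx).1 (mem_sdiff.1 hx).2)
  have b : 0 ≤ ∑ x ∈ T \ R, d x := sum_nonneg (fun x hx => h2 x (mem_sdiff.1 hx).1 (mem_sdiff.1 hx).2)
  omega

theorem blocked (hq : Q S p m1 m2 Z) {u v : ι} (hu : u ∈ Z) (hv : v ∈ S \ Z)
    (h : ¬ Q S p m1 m2 (insert v (Z.erase u))) :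
    (∃ X, Tight S p (S \ Z) m1 X ∧ v ∈ X ∧ u ∉ X) ∨ (∃ Y, Tight S p Z m2 Y ∧ u ∈ Y ∧ v ∉ Y) := by
  have hsub : insert v (Z.erase u) ⊆ S :=
    insert_subset (mem_sdiff.1 hv).1 ((erase_subset _ _).trans hq.1)
  have huv : u ≠ v := by rintro rfl; exact (mem_sdiff.1 hv).2 hu
  by_cases h1 : Cov S p (insert v (Z.erase u)) m2
  · have h2 : ¬ Cov S p (S \ insert v (Z.erase u)) m1 := fun h2 => h ⟨hsub, h1, h2⟩
    obtain ⟨X, hX, hvX, h3⟩ := block hq.2.2 (v := v) (by
      intro a; simp only [mem_erase, mem_sdiff, mem_insert]; tauto) h2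
    refine Or.inl ⟨X, hX, hvX, fun huX => ?_⟩
    have := h3 (mem_inter.2 ⟨huX, by simp [hq.1 hu, huv]⟩)
    exact (mem_sdiff.1 this).2 hu
  · obtain ⟨Y, hY, huY, h3⟩ := block hq.2.1 (v := u) (subset_insert _ _) h1
    refine Or.inr ⟨Y, hY, huY, fun hvY => ?_⟩
    exact (mem_sdiff.1 hv).2 (h3 (mem_inter.2 ⟨hvY, mem_insert_self _ _⟩))

/-- Local optimality gives global optimality. -/
theorem local_global (hs : Skew S p) (hb : Bnd S p (m1 + m2)) (hq : Q S p m1 m2 Z)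
    (hw : Wit S p m1 m2 K z) (hsum : ∑ x ∈ S, z x = K * Z.card) {R : Finset ι} (hR : R ⊆ S)
    (hno : ∀ u ∈ Z, u ∈ R → ∀ v ∈ S \ Z, v ∉ R → ¬ Q S p m1 m2 (insert v (Z.erase u))) :
    K * (R ∩ Z).card ≤ ∑ x ∈ R, z x := by
  have hS1 : S ⊆ S \ Z ∪ Z := by rw [sdiff_union_self_eq_union]; exact subset_union_left
  have hbl : ∀ u ∈ Z ∩ R, ∀ v ∈ (S \ Z) \ R,
      (∃ X, Tight S p (S \ Z) m1 X ∧ v ∈ X ∧ u ∉ X) ∨ (∃ Y, Tight S p Z m2 Y ∧ u ∈ Y ∧ v ∉ Y) :=
    fun u hu v hv => blocked hq (mem_inter.1 hu).1 (mem_sdiff.1 hv).1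
      (hno u (mem_inter.1 hu).1 (mem_inter.1 hu).2 v (mem_sdiff.1 hv).1 (mem_sdiff.1 hv).2)
  have goal : 0 ≤ ∑ x ∈ R, dd K z Z x := by
    by_cases hA : ∀ u ∈ Z ∩ R, ∃ Y, Tight S p Z m2 Y ∧ u ∈ Y
    · obtain ⟨T, hT, h1, h2, h3⟩ := half hs (by rwa [add_comm]) hq.2.1 hq.2.2 disjoint_sdiff
        (by rwa [union_comm]) (fun x => - dd K z Z x) (dd_L hw) (V := Z ∩ R) (A := (S \ Z) \ R)
        inter_subset_left (fun v hv u hu => (hbl u hu v hv).symm) hA
      have := sum_le_of (fun x => - dd K z Z x) (R := R) (T := T) (fun x hx hT' => by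
          have : x ∉ Z := fun h => hT' (h1 (mem_inter.2 ⟨h, hx⟩))
          simpa using dd_pos hw (hR hx) this) (fun x hx hR' => by
          have : x ∈ Z := by
            by_contra h
            exact disjoint_left.1 h2 hx (by simp [hT hx, h, hR'])
          simpa using dd_neg hw (hT hx) this)
      rw [sum_neg_distrib] at this
      omega
    · push Not at hA
      obtain ⟨u, hu, hA⟩ := hA
      obtain ⟨T, hT, h1, h2, h3⟩ := half hs hb hq.2.2 hq.2.1 sdiff_disjoint hS1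
        (dd K z Z) (dd_U hw) (V := (S \ Z) \ R) (A := Z ∩ R) sdiff_subset hbl (fun v hv => by
          rcases hbl u hu v hv with ⟨X, h1, h2, -⟩ | ⟨Y, h1, h2, -⟩
          · exact ⟨X, h1, h2⟩
          · exact absurd h2 (hA Y h1))
      have := sum_le_of (dd K z Z) (R := S \ R) (T := T) (fun x hx hT' => by
          have : x ∈ Z := by
            by_contra h
            exact hT' (h1 (by simp [(mem_sdiff.1 hx).1, (mem_sdiff.1 hx).2, h]))
          exact dd_neg hw (mem_sdiff.1 hx).1 this) (fun x hx hR' => by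
          have : x ∉ Z := fun h => disjoint_left.1 h2 hx (by
            simp only [mem_sdiff, hT hx, true_and, not_not] at hR'
            exact mem_inter.2 ⟨h, hR'⟩)
          exact dd_pos hw (hT hx) this)
      have e1 := sum_sdiff hR (f := dd K z Z)
      have e2 := sum_dd K z Z S
      rw [inter_eq_right.2 hq.1] at e2
      omega
  rw [sum_dd] at goal
  omega

theorem no_add (hs : Skew S p) (hq : Q S p m1 m2 Z) (hw : Wit S p m1 m2 K z)
    (hno : ∀ v ∈ S \ Z, ¬ Cov S p (S \ insert v Z) m1) : ∑ x ∈ S, z x ≤ K * Z.card := by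
  obtain ⟨T, hT, h1, -, h3⟩ := cover hs hq.2.2 (dd K z Z) (dd_U hw) (V := S \ Z) (A := ∅)
    subset_rfl (fun v hv => by
      obtain ⟨X, hX, hvX, -⟩ := block hq.2.2 (v := v) (by
        intro a; simp only [mem_erase, mem_sdiff, mem_insert]; tauto) (hno v hv)
      exact ⟨X, hX, hvX, disjoint_empty_right _⟩)
  have := sum_le_of (dd K z Z) (R := S) (T := T) (fun x hx hT' => by
    have : x ∈ Z := by
      by_contra h
      exact hT' (h1 (by simp [hx, h]))
    exact dd_neg hw hx this) (fun x hx hS => absurd (hT hx) hS)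
  have e2 := sum_dd K z Z S
  rw [inter_eq_right.2 hq.1] at e2
  omega

theorem no_del (hs : Skew S p) (hq : Q S p m1 m2 Z) (hw : Wit S p m1 m2 K z)
    (hno : ∀ u ∈ Z, ¬ Cov S p (Z.erase u) m2) : K * Z.card ≤ ∑ x ∈ S, z x := by
  obtain ⟨T, hT, h1, -, h3⟩ := cover hs hq.2.1 (fun x => - dd K z Z x) (dd_L hw) (V := Z) (A := ∅)
    subset_rfl (fun v hv => by
      obtain ⟨X, hX, hvX, -⟩ := block hq.2.1 (v := v) subset_rfl (hno v hv)
      exact ⟨X, hX, hvX, disjoint_empty_right _⟩)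
  have := sum_le_of (fun x => - dd K z Z x) (R := S) (T := T) (fun x hx hT' => by
    have : x ∉ Z := fun h => hT' (h1 h)
    simpa using dd_pos hw hx this) (fun x hx hS => absurd (hT hx) hS)
  have e2 := sum_dd K z Z S
  rw [inter_eq_right.2 hq.1] at e2
  rw [sum_neg_distrib] at this
  omega

theorem max_cov (hs : Skew S p) (hb : Bnd S p (m1 + m2)) (hc : Cov S p (S \ Z) m1)
    (hno : ∀ v ∈ S \ Z, ¬ Cov S p (S \ insert v Z) m1) : Cov S p Z m2 := by
  intro Y
  induction Y using Finset.strongInduction with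
  | _ Y ih =>
  intro hY
  by_contra hcon
  have a0 := (hb Y hY).1
  obtain ⟨v, hvY, hvZ⟩ : ∃ v ∈ Y, v ∉ Z := by
    by_contra h
    push Not at h
    rw [inter_eq_left.2 h] at hcon
    omega
  obtain ⟨X, hX, hvX, -⟩ := block hc (v := v) (by
    intro a; simp only [mem_erase, mem_sdiff, mem_insert]; tauto) (hno v (by simp [hY hvY, hvZ]))
  have h1 := split1 X Y (S \ Z)
  have h2 := split2 X Y Z
  have h3 := card_compl_split (S := S) (W := S \ Z) (W' := Z) sdiff_disjoint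
    (by rw [sdiff_union_self_eq_union]; exact subset_union_left)
    (inter_subset_left.trans hX.1 : X ∩ Y ⊆ S)
  have a1 := (hb (X ∩ Y) (inter_subset_left.trans hX.1)).1
  have a2 := (hb (X ∪ Y) (union_subset hX.1 hY)).2
  have a3 := hc (X \ Y) (sdiff_subset.trans hX.1)
  have a4 := ih (Y \ X) ⟨sdiff_subset, fun h => (mem_sdiff.1 (h hvY)).2 hvX⟩ (sdiff_subset.trans hY)
  have b1 := hX.2
  push_cast at a2
  rcases hs X hX.1 Y hY with h | h <;> omega

theorem wit_of_Q (hq : Q S p m1 m2 Z) : Wit S p m1 m2 1 (fun x => if x ∈ Z then 1 else 0) := by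
  have e : ∀ X : Finset ι, ∑ x ∈ X, (if x ∈ Z then (1 : ℤ) else 0) = (X ∩ Z).card := fun X => by
    rw [← sum_filter, sum_const, filter_mem_eq_inter]; simp
  refine ⟨one_pos, fun x _ => by split_ifs <;> simp, fun x _ => by split_ifs <;> simp,
    fun X hX => ?_, fun X hX => ?_⟩
  · have := hq.2.1 X hX
    rw [e]; omega
  · have := hq.2.2 X hX
    have h2 := card_compl_split (S := S) (W := S \ Z) (W' := Z) sdiff_disjoint
      (by rw [sdiff_union_self_eq_union]; exact subset_union_left) hX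
    rw [e]; omega

theorem sum_ind (Z X : Finset ι) :
    ∑ x ∈ X, (if x ∈ Z then (1 : ℤ) else 0) = (X ∩ Z).card := by
  rw [← sum_filter, sum_const, filter_mem_eq_inter]; simp

theorem exchange (hs : Skew S p) (hb : Bnd S p (m1 + m2)) (hq : Q S p m1 m2 Z) {Z' : Finset ι}
    (hq' : Q S p m1 m2 Z') (hc : Z'.card = Z.card) {u : ι} (hu : u ∈ Z) (hu' : u ∉ Z') :
    ∃ v ∈ Z', v ∉ Z ∧ Q S p m1 m2 (insert v (Z.erase u)) := by
  by_contra hcon
  push Not at hcon
  have := local_global hs hb hq (wit_of_Q hq') (by rw [sum_ind, inter_eq_right.2 hq'.1, hc]; simp)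
    (R := insert u (S \ (Z ∪ Z'))) (insert_subset (hq.1 hu) sdiff_subset) (fun a ha haR v hv hvR => by
      have : a = u := by simpa [ha] using haR
      subst this
      refine hcon v ?_ (mem_sdiff.1 hv).2
      by_contra h
      exact hvR (by simp [(mem_sdiff.1 hv).1, (mem_sdiff.1 hv).2, h]))
  rw [sum_ind] at this
  have e1 : insert u (S \ (Z ∪ Z')) ∩ Z' = ∅ := by
    ext a; simp only [mem_inter, mem_insert, mem_sdiff, mem_union, notMem_empty]
    constructor
    · rintro ⟨rfl | h, h'⟩ <;> tauto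
    · tauto
  have e2 : 0 < (insert u (S \ (Z ∪ Z')) ∩ Z).card := card_pos.2 ⟨u, by simp [hu]⟩
  rw [e1] at this
  simp only [card_empty] at this
  omega

theorem two_by_two (hs : Skew S p) (hb : Bnd S p (m1 + m2)) {a b c d : ι} (ha : a ∈ Z) (hc : c ∈ Z)
    (hb' : b ∉ Z) (hd : d ∉ Z) (hac : a ≠ c)
    (h1 : Q S p m1 m2 (insert b (Z.erase a))) (h2 : Q S p m1 m2 (insert d (Z.erase c)))
    (h3 : ¬ Q S p m1 m2 (insert d (Z.erase a))) :
    Q S p m1 m2 (insert b ((insert d (Z.erase c)).erase a)) := by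
  have hab : a ≠ b := by rintro rfl; exact hb' ha
  have had : a ≠ d := by rintro rfl; exact hd ha
  obtain ⟨v, hv1, hv2, hv3⟩ := exchange hs hb h2 h1 (u := a) (by
      rw [card_insert_of_notMem (by simp [hb']), card_insert_of_notMem (by simp [hd]),
        card_erase_of_mem ha, card_erase_of_mem hc]) (by simp [ha, hac]) (by simp [hab])
  by_cases hvb : v = b
  · rwa [hvb] at hv3
  · have hvc : v = c := by
      simp only [mem_insert, mem_erase] at hv1 hv2
      tauto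
    subst hvc
    exfalso; apply h3
    convert hv3 using 1
    ext x; simp only [mem_insert, mem_erase]
    by_cases hx : x = v
    · subst hx; simp [hc, hac.symm]
    · by_cases hx2 : x = d
      · subst hx2; simp [had.symm]
      · simp [hx, hx2]

end

end Pool.Agent.H.MP_1195b1_lc
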