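import Pool.Agent.H.MP_1195b1_lc.A

set_option autoImplicit false
set_option linter.unusedSectionVars false
open Finset

namespace Pool.Agent.H.MP_1195b1_lc

variable {ι : Type} [DecidableEq ι]

def Arc1 (S : Finset ι) (P : Finset ι → Prop) (B : Finset ι) (x y : ι) : Prop :=
  x ∈ B ∧ y ∈ S ∧ y ∉ B ∧ P (insert y (B.erase x))

def Arc2 (S : Finset ι) (P : Finset ι → Prop) (B : Finset ι) (x y : ι) : Prop :=
  x ∈ S ∧ x ∉ B ∧ y ∈ B ∧ P (insert x (B.erase y))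

def Reach (S : Finset ι) (P1 P2 : Finset ι → Prop) (B1 B2 : Finset ι) : ℕ → ι → Prop
  | 0, x => x ∈ B2 ∧ x ∉ B1
  | j + 1, x => Reach S P1 P2 B1 B2 j x ∨
      ∃ y, Reach S P1 P2 B1 B2 j y ∧ (Arc1 S P1 B1 x y ∨ Arc2 S P2 B2 x y)

section
variable {S : Finset ι} {P1 P2 : Finset ι → Prop} {B1 B2 : Finset ι}

theorem Reach.mono {i j : ℕ} (hij : i ≤ j) {x : ι} (h : Reach S P1 P2 B1 B2 i x) :
    Reach S P1 P2 B1 B2 j x := by
  induction hij with
  | refl => exact h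
  | step _ ih => exact Or.inl ih

theorem Reach.mem (h1 : B1 ⊆ S) (h2 : B2 ⊆ S) {j : ℕ} {x : ι} (h : Reach S P1 P2 B1 B2 j x) :
    x ∈ S := by
  induction j generalizing x with
  | zero => exact h2 h.1
  | succ j ih =>
    rcases h with h | ⟨y, -, h | h⟩
    · exact ih h
    · exact h1 h.1
    · exact h.1

theorem reach_closed (h1 : B1 ⊆ S) (h2 : B2 ⊆ S) {x : ι}
    (h : Reach S P1 P2 B1 B2 (S.card + 1) x) : Reach S P1 P2 B1 B2 S.card x := by
  classical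
  have key : ∀ j, j ≤ (S.filter (Reach S P1 P2 B1 B2 j)).card ∨
      ∀ x, Reach S P1 P2 B1 B2 (j + 1) x → Reach S P1 P2 B1 B2 j x := by
    intro j
    induction j with
    | zero => exact Or.inl (Nat.zero_le _)
    | succ j ih =>
      by_cases hc : ∀ x, Reach S P1 P2 B1 B2 (j + 1) x → Reach S P1 P2 B1 B2 j x
      · right
        rintro x (hx | ⟨y, hy, hx⟩)
        · exact hx
        · exact Or.inr ⟨y, hc y hy, hx⟩
      · left
        have ih := ih.resolve_right hc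
        push Not at hc
        obtain ⟨x, hx1, hx2⟩ := hc
        have : (S.filter (Reach S P1 P2 B1 B2 j)).card <
            (S.filter (Reach S P1 P2 B1 B2 (j + 1))).card := by
          refine card_lt_card ⟨fun a ha => ?_, fun hsub => ?_⟩
          · exact mem_filter.2 ⟨(mem_filter.1 ha).1, Or.inl (mem_filter.1 ha).2⟩
          · exact hx2 (mem_filter.1 (hsub (mem_filter.2 ⟨hx1.mem h1 h2, hx1⟩))).2
        omega
  rcases key S.card with hk | hk
  · have : S.filter (Reach S P1 P2 B1 B2 S.card) = S :=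
      eq_of_subset_of_card_le (filter_subset _ _) hk
    have h3 := h.mem h1 h2
    rw [← this] at h3
    exact (mem_filter.1 h3).2
  · exact hk x h

end

section
variable {S : Finset ι} {p1 p2 : Finset ι → ℤ} {m1 m2 : ℕ} {K : ℤ} {z : ι → ℤ}
  {B1 B2 : Finset ι}

theorem exists_reach (hs1 : Skew S p1) (hb1 : Bnd S p1 (m1 + m2)) (hs2 : Skew S p2)
    (hb2 : Bnd S p2 (m1 + m2)) (hq1 : Q S p1 m1 m2 B1) (hq2 : Q S p2 m1 m2 B2)
    (hw1 : Wit S p1 m1 m2 K z) (hw2 : Wit S p2 m1 m2 K z) (hc : B2.card = B1.card)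
    (hsum : ∑ x ∈ S, z x = K * B1.card) (hne : B1 ≠ B2) :
    ∃ s ∈ B1, s ∉ B2 ∧ Reach S (Q S p1 m1 m2) (Q S p2 m1 m2) B1 B2 S.card s := by
  classical
  by_contra hcon
  push Not at hcon
  set D := S.filter (Reach S (Q S p1 m1 m2) (Q S p2 m1 m2) B1 B2 S.card) with hD
  have hDS : D ⊆ S := filter_subset _ _
  have e1 := local_global hs1 hb1 hq1 hw1 hsum (R := S \ D) sdiff_subset (by
    intro u hu huR v hv hvR hq
    have hv' : v ∈ D := by simpa [(mem_sdiff.1 hv).1] using hvR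
    exact (mem_sdiff.1 huR).2 (mem_filter.2 ⟨hq1.1 hu, reach_closed hq1.1 hq2.1
      (Or.inr ⟨v, (mem_filter.1 hv').2, Or.inl ⟨hu, (mem_sdiff.1 hv).1, (mem_sdiff.1 hv).2, hq⟩⟩)⟩))
  have e2 := local_global hs2 hb2 hq2 hw2 (by rw [hc]; exact hsum) (R := D) hDS (by
    intro u hu huR v hv hvR hq
    exact hvR (mem_filter.2 ⟨(mem_sdiff.1 hv).1, reach_closed hq1.1 hq2.1
      (Or.inr ⟨u, (mem_filter.1 huR).2, Or.inr ⟨(mem_sdiff.1 hv).1, (mem_sdiff.1 hv).2, hu, hq⟩⟩)⟩))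
  have e3 := sum_sdiff hDS (f := z)
  have e4 : B1.card = ((S \ D) ∩ B1).card + (D ∩ B1).card := by
    rw [← card_union_of_disjoint (sdiff_disjoint.mono inter_subset_left inter_subset_left),
      ← union_inter_distrib_right, sdiff_union_of_subset hDS, inter_eq_right.2 hq1.1]
  have e5 : (D ∩ B1).card < (D ∩ B2).card := by
    obtain ⟨t, ht2, ht1⟩ : ∃ t ∈ B2, t ∉ B1 := by
      by_contra h
      push Not at h
      exact hne (eq_of_subset_of_card_le h hc.ge).symm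
    refine card_lt_card ⟨fun a ha => ?_, fun hsub => ?_⟩
    · rw [mem_inter] at ha ⊢
      refine ⟨ha.1, ?_⟩
      by_contra h
      exact hcon a ha.2 h (mem_filter.1 ha.1).2
    · exact ht1 (mem_inter.1 (hsub (mem_inter.2 ⟨mem_filter.2 ⟨hq2.1 ht2,
        Reach.mono (Nat.zero_le _) ⟨ht2, ht1⟩⟩, ht2⟩))).2
  have hK := hw1.pos
  have e6 : (B1.card : ℤ) = ((S \ D) ∩ B1).card + (D ∩ B1).card := by exact_mod_cast e4
  have e7 : ((D ∩ B1).card : ℤ) + 1 ≤ (D ∩ B2).card := by exact_mod_cast e5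
  rw [hsum, e6] at e3
  nlinarith

theorem step1 (hs1 : Skew S p1) (hb1 : Bnd S p1 (m1 + m2)) {P2 : Finset ι → Prop} {j : ℕ} {s y : ι}
    (hs : s ∉ B2) (hns : ¬ Reach S (Q S p1 m1 m2) P2 B1 B2 j s)
    (ha : Arc1 S (Q S p1 m1 m2) B1 s y) (hy : y ∉ B2) :
    ∀ i ≤ j, ∀ x, Reach S (Q S p1 m1 m2) P2 B1 B2 i x →
      Reach S (Q S p1 m1 m2) P2 (insert y (B1.erase s)) B2 i x := by
  intro i
  induction i with
  | zero =>
    rintro - x ⟨h1, h2⟩
    refine ⟨h1, ?_⟩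
    simp only [mem_insert, mem_erase, not_or]
    exact ⟨fun h => hy (h ▸ h1), fun h => h2 h.2⟩
  | succ i ih =>
    rintro hi x (hx | ⟨w, hw, hx | hx⟩)
    · exact Or.inl (ih (by omega) x hx)
    · have hxs : x ≠ s := by
        rintro rfl; exact hns (Reach.mono hi (Or.inr ⟨w, hw, Or.inl hx⟩))
      have hn : ¬ Q S p1 m1 m2 (insert w (B1.erase s)) := fun h =>
        hns (Reach.mono hi (Or.inr ⟨w, hw, Or.inl ⟨ha.1, hx.2.1, hx.2.2.1, h⟩⟩))
      have hwy : w ≠ y := by rintro rfl; exact hn ha.2.2.2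
      have := two_by_two hs1 hb1 ha.1 hx.1 ha.2.2.1 hx.2.2.1 hxs.symm ha.2.2.2 hx.2.2.2 hn
      refine Or.inr ⟨w, ih (by omega) w hw, Or.inl ⟨by simp [hxs, hx.1], hx.2.1,
        by simp [hwy, hx.2.2.1], ?_⟩⟩
      convert this using 1
      have h1 := ha.1
      have h2 := hx.1
      have h3 := ha.2.2.1
      have h4 := hx.2.2.1
      ext a; simp only [mem_insert, mem_erase]
      constructor
      · rintro (rfl | ⟨h5, rfl | h6⟩)
        · exact Or.inr ⟨fun h => h4 (h ▸ h1), Or.inl rfl⟩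
        · exact Or.inl rfl
        · exact Or.inr ⟨h6.1, Or.inr ⟨h5, h6.2⟩⟩
      · rintro (rfl | ⟨h5, rfl | h6⟩)
        · exact Or.inr ⟨fun h => h3 (h ▸ h2), Or.inl rfl⟩
        · exact Or.inl rfl
        · exact Or.inr ⟨h6.1, Or.inr ⟨h5, h6.2⟩⟩
    · exact Or.inr ⟨w, ih (by omega) w hw, Or.inr hx⟩

theorem step2 (hs2 : Skew S p2) (hb2 : Bnd S p2 (m1 + m2)) {P1 : Finset ι → Prop} {j : ℕ} {s y : ι}
    (hs : s ∈ B1) (hns : ¬ Reach S P1 (Q S p2 m1 m2) B1 B2 j s)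
    (ha : Arc2 S (Q S p2 m1 m2) B2 s y) (hy : y ∈ B1) :
    ∀ i ≤ j, ∀ x, Reach S P1 (Q S p2 m1 m2) B1 B2 i x →
      Reach S P1 (Q S p2 m1 m2) B1 (insert s (B2.erase y)) i x := by
  intro i
  induction i with
  | zero =>
    rintro - x ⟨h1, h2⟩
    refine ⟨?_, h2⟩
    simp only [mem_insert, mem_erase]
    exact Or.inr ⟨fun h => h2 (h ▸ hy), h1⟩
  | succ i ih =>
    rintro hi x (hx | ⟨w, hw, hx | hx⟩)
    · exact Or.inl (ih (by omega) x hx)
    · exact Or.inr ⟨w, ih (by omega) w hw, Or.inl hx⟩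
    · have hxs : x ≠ s := by
        rintro rfl; exact hns (Reach.mono hi (Or.inr ⟨w, hw, Or.inr hx⟩))
      have hn : ¬ Q S p2 m1 m2 (insert s (B2.erase w)) := fun h =>
        hns (Reach.mono hi (Or.inr ⟨w, hw, Or.inr ⟨ha.1, ha.2.1, hx.2.2.1, h⟩⟩))
      have hwy : w ≠ y := by rintro rfl; exact hn ha.2.2.2
      have := two_by_two hs2 hb2 hx.2.2.1 ha.2.2.1 hx.2.1 ha.2.1 hwy hx.2.2.2 ha.2.2.2 hn
      exact Or.inr ⟨w, ih (by omega) w hw, Or.inr ⟨hx.1, by simp [hxs, hx.2.1],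
        by simp [hwy, hx.2.2.1], this⟩⟩

/-- Progress measure. -/
def Good (S : Finset ι) (P1 P2 : Finset ι → Prop) (B1 B2 : Finset ι) (N : ℕ) : Prop :=
  B1 = B2 ∨ ∃ j ≤ S.card, ∃ s ∈ B1, s ∉ B2 ∧ Reach S P1 P2 B1 B2 j s ∧
    (B1 \ B2).card * (S.card + 1) + j ≤ N

theorem good_of (hs1 : Skew S p1) (hb1 : Bnd S p1 (m1 + m2)) (hs2 : Skew S p2)
    (hb2 : Bnd S p2 (m1 + m2)) (hq1 : Q S p1 m1 m2 B1) (hq2 : Q S p2 m1 m2 B2)
    (hw1 : Wit S p1 m1 m2 K z) (hw2 : Wit S p2 m1 m2 K z) (hc : B2.card = B1.card)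
    (hsum : ∑ x ∈ S, z x = K * B1.card) {N : ℕ}
    (hN : (B1 \ B2).card * (S.card + 1) + S.card ≤ N) :
    Good S (Q S p1 m1 m2) (Q S p2 m1 m2) B1 B2 N := by
  by_cases hne : B1 = B2
  · exact Or.inl hne
  · obtain ⟨s, h1, h2, h3⟩ := exists_reach hs1 hb1 hs2 hb2 hq1 hq2 hw1 hw2 hc hsum hne
    exact Or.inr ⟨_, le_rfl, s, h1, h2, h3, hN⟩

theorem card_exch {B : Finset ι} {u v : ι} (hu : u ∈ B) (hv : v ∉ B) :
    (insert v (B.erase u)).card = B.card := by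
  rw [card_insert_of_notMem (by simp [hv]), card_erase_add_one hu]

theorem good_step1 (hs1 : Skew S p1) (hb1 : Bnd S p1 (m1 + m2)) (hs2 : Skew S p2)
    (hb2 : Bnd S p2 (m1 + m2)) (hq2 : Q S p2 m1 m2 B2)
    (hw1 : Wit S p1 m1 m2 K z) (hw2 : Wit S p2 m1 m2 K z) (hc : B2.card = B1.card)
    (hsum : ∑ x ∈ S, z x = K * B1.card) {N j : ℕ} {s y : ι} (hs : s ∉ B2)
    (hns : ∀ s ∈ B1, s ∉ B2 → ¬ Reach S (Q S p1 m1 m2) (Q S p2 m1 m2) B1 B2 j s)
    (hy : Reach S (Q S p1 m1 m2) (Q S p2 m1 m2) B1 B2 j y)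
    (ha : Arc1 S (Q S p1 m1 m2) B1 s y)
    (hg : Good S (Q S p1 m1 m2) (Q S p2 m1 m2) B1 B2 (N + 1)) :
    Good S (Q S p1 m1 m2) (Q S p2 m1 m2) (insert y (B1.erase s)) B2 N := by
  rcases hg with rfl | ⟨j', hj', s', h1, h2, h3, h4⟩
  · exact absurd ha.1 hs
  have hjj : j < j' := by
    by_contra h
    exact hns s' h1 h2 (h3.mono (not_lt.1 h))
  have hce := card_exch ha.1 ha.2.2.1
  by_cases hy2 : y ∈ B2
  · refine good_of hs1 hb1 hs2 hb2 ha.2.2.2 hq2 hw1 hw2 (by rw [hce, hc]) (by rw [hce, hsum]) ?_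
    have : insert y (B1.erase s) \ B2 = (B1 \ B2).erase s := by
      ext a; simp only [mem_sdiff, mem_insert, mem_erase]
      constructor
      · rintro ⟨rfl | h, h'⟩
        · exact absurd hy2 h'
        · tauto
      · tauto
    rw [this]
    have := card_erase_add_one (mem_sdiff.2 ⟨ha.1, hs⟩)
    rw [← this] at h4
    nlinarith
  · refine Or.inr ⟨j, by omega, y, mem_insert_self _ _, hy2,
      step1 hs1 hb1 hs (hns s ha.1 hs) ha hy2 j le_rfl y hy, ?_⟩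
    have : insert y (B1.erase s) \ B2 = insert y ((B1 \ B2).erase s) := by
      ext a; simp only [mem_sdiff, mem_insert, mem_erase]
      constructor
      · tauto
      · rintro (rfl | h)
        · tauto
        · tauto
    rw [this, card_exch (mem_sdiff.2 ⟨ha.1, hs⟩) (by simp [ha.2.2.1])]
    omega

theorem good_step2 (hs1 : Skew S p1) (hb1 : Bnd S p1 (m1 + m2)) (hs2 : Skew S p2)
    (hb2 : Bnd S p2 (m1 + m2)) (hq1 : Q S p1 m1 m2 B1)
    (hw1 : Wit S p1 m1 m2 K z) (hw2 : Wit S p2 m1 m2 K z) (hc : B2.card = B1.card)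
    (hsum : ∑ x ∈ S, z x = K * B1.card) {N j : ℕ} {s y : ι} (hs : s ∈ B1)
    (hns : ∀ s ∈ B1, s ∉ B2 → ¬ Reach S (Q S p1 m1 m2) (Q S p2 m1 m2) B1 B2 j s)
    (hy : Reach S (Q S p1 m1 m2) (Q S p2 m1 m2) B1 B2 j y)
    (ha : Arc2 S (Q S p2 m1 m2) B2 s y)
    (hg : Good S (Q S p1 m1 m2) (Q S p2 m1 m2) B1 B2 (N + 1)) :
    Good S (Q S p1 m1 m2) (Q S p2 m1 m2) B1 (insert s (B2.erase y)) N := by
  rcases hg with rfl | ⟨j', hj', s', h1, h2, h3, h4⟩
  · exact absurd hs ha.2.1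
  have hjj : j < j' := by
    by_contra h
    exact hns s' h1 h2 (h3.mono (not_lt.1 h))
  have hce := card_exch ha.2.2.1 ha.2.1
  have hys : y ≠ s := by rintro rfl; exact ha.2.1 ha.2.2.1
  by_cases hy1 : y ∈ B1
  · refine Or.inr ⟨j, by omega, y, hy1, by simp [hys],
      step2 hs2 hb2 hs (hns s hs ha.2.1) ha hy1 j le_rfl y hy, ?_⟩
    have : B1 \ insert s (B2.erase y) = insert y ((B1 \ B2).erase s) := by
      ext a; simp only [mem_sdiff, mem_insert, mem_erase]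
      constructor
      · tauto
      · rintro (rfl | h)
        · tauto
        · tauto
    rw [this, card_exch (mem_sdiff.2 ⟨hs, ha.2.1⟩) (by simp [ha.2.2.1])]
    omega
  · refine good_of hs1 hb1 hs2 hb2 hq1 ha.2.2.2 hw1 hw2 (by rw [hce, hc]) hsum ?_
    have : B1 \ insert s (B2.erase y) = (B1 \ B2).erase s := by
      ext a; simp only [mem_sdiff, mem_insert, mem_erase]
      constructor
      · rintro ⟨h, h'⟩
        have : a ≠ y := fun e => hy1 (e ▸ h)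
        tauto
      · tauto
    rw [this]
    have := card_erase_add_one (mem_sdiff.2 ⟨hs, ha.2.1⟩)
    rw [← this] at h4
    nlinarith

theorem good_zero {P1 P2 : Finset ι → Prop} (hg : Good S P1 P2 B1 B2 0) : B1 = B2 := by
  rcases hg with h | ⟨j, -, s, h1, h2, -, h4⟩
  · exact h
  · have : 0 < (B1 \ B2).card := card_pos.2 ⟨s, mem_sdiff.2 ⟨h1, h2⟩⟩
    nlinarith

end

end Pool.Agent.H.MP_1195b1_lc
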