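import Pool.Agent.H.MP_1195b1_lc.B
import Pool.Agent.Lib.lead.CXNP

set_option autoImplicit false
set_option linter.unusedSectionVars false
open Finset

namespace Pool.Agent.H.MP_1195b1_lc
open Pool.Agent.Lib.CX

variable {ι : Type} [DecidableEq ι]

section defs
variable (c : Bool → List ι → ℕ → Bool) (l : List ι) (m1 m2 r : ℕ)

def cpl (Z : List ι) : List ι := l.filter (fun x => decide (x ∉ Z))
def ins (Z : List ι) (v : ι) : List ι := l.filter (fun x => decide (x = v ∨ x ∈ Z))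
def del (Z : List ι) (u : ι) : List ι := l.filter (fun x => decide (x ∈ Z ∧ x ≠ u))
def exch (Z : List ι) (u v : ι) : List ι := l.filter (fun x => decide (x = v ∨ (x ∈ Z ∧ x ≠ u)))
def qq (i : Bool) (Z : List ι) : Bool := c i Z m2 && c i (cpl l Z) m1
def fA (i : Bool) (Z : List ι) (v : ι) : List ι :=
  cond (c i (cpl l (ins l Z v)) m1) (ins l Z v) Z
def phA (i : Bool) : List ι := l.foldl (fA c l m1 i) []
def fB (i : Bool) (Z : List ι) (u : ι) : List ι :=
  cond (decide (r < Z.length) && decide (u ∈ Z) && c i (del l Z u) m2) (del l Z u) Z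
def phB (i : Bool) : List ι := l.foldl (fB c l m2 r i) (phA c l m1 i)
def a1 (B : List ι) (x y : ι) : Bool :=
  decide (x ∈ B) && decide (y ∉ B) && qq c l m1 m2 true (exch l B x y)
def a2 (B : List ι) (x y : ι) : Bool :=
  decide (x ∉ B) && decide (y ∈ B) && qq c l m1 m2 false (exch l B y x)
def src (B : List ι × List ι) (x : ι) : Bool := decide (x ∈ B.1) && decide (x ∉ B.2)
def nxt (B : List ι × List ι) (D : List ι) : List ι :=
  l.filter (fun x => decide (x ∈ D) || D.any (fun y => a1 c l m1 m2 B.1 x y || a2 c l m1 m2 B.2 x y))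
def grow (B : List ι × List ι) (D : List ι) : List ι :=
  cond ((nxt c l m1 m2 B D).any (src B)) D (nxt c l m1 m2 B D)
def lay0 (B : List ι × List ι) : List ι := l.filter (fun x => decide (x ∈ B.2) && decide (x ∉ B.1))
def lay (B : List ι × List ι) : List ι := (grow c l m1 m2 B)^[l.length] (lay0 l B)
def stp (B : List ι × List ι) : List ι × List ι :=
  lcase ((l ×ˢ lay c l m1 m2 B).filter (fun q => src B q.1 && a1 c l m1 m2 B.1 q.1 q.2))
    (lcase ((l ×ˢ lay c l m1 m2 B).filter (fun q => src B q.1 && a2 c l m1 m2 B.2 q.1 q.2)) B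
      (fun q _ => (B.1, exch l B.2 q.2 q.1)))
    (fun q _ => (exch l B.1 q.1 q.2, B.2))
def fin : List ι × List ι :=
  (stp c l m1 m2)^[(l.length + 1) * (l.length + 1)] (phB c l m1 m2 r true, phB c l m1 m2 r false)
def answer : Bool :=
  decide ((phB c l m1 m2 r true).length = r) && decide ((phB c l m1 m2 r false).length = r) &&
    l.all (fun x => decide (x ∈ (fin c l m1 m2 r).1) == decide (x ∈ (fin c l m1 m2 r).2))

end defs

section
variable {c : Bool → List ι → ℕ → Bool} {l : List ι} {m1 m2 r : ℕ} {p : Bool → Finset ι → ℤ}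

theorem cpl_fs (Z : List ι) : (cpl l Z).toFinset = l.toFinset \ Z.toFinset := by
  ext a; simp [cpl]

theorem ins_fs {Z : List ι} {v : ι} (hZ : Z.Sublist l) (hv : v ∈ l) :
    (ins l Z v).toFinset = insert v Z.toFinset := by
  ext a; simp only [ins, List.mem_toFinset, List.mem_filter, decide_eq_true_eq, mem_insert]
  constructor
  · tauto
  · rintro (rfl | h)
    · tauto
    · exact ⟨hZ.subset h, Or.inr h⟩

theorem del_fs {Z : List ι} (u : ι) (hZ : Z.Sublist l) :
    (del l Z u).toFinset = Z.toFinset.erase u := by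
  ext a; simp only [del, List.mem_toFinset, List.mem_filter, decide_eq_true_eq, mem_erase]
  constructor
  · tauto
  · rintro ⟨h1, h⟩
    exact ⟨hZ.subset h, h, h1⟩

theorem exch_fs {Z : List ι} (u : ι) {v : ι} (hZ : Z.Sublist l) (hv : v ∈ l) :
    (exch l Z u v).toFinset = insert v (Z.toFinset.erase u) := by
  ext a
  simp only [exch, List.mem_toFinset, List.mem_filter, decide_eq_true_eq, mem_erase, mem_insert]
  constructor
  · tauto
  · rintro (rfl | ⟨h1, h⟩)
    · tauto
    · exact ⟨hZ.subset h, Or.inr ⟨h, h1⟩⟩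

theorem sub_fs {Z : List ι} (hZ : Z.Sublist l) : Z.toFinset ⊆ l.toFinset := fun a ha => by
  simpa using hZ.subset (by simpa using ha)

theorem len_fs (hl : l.Nodup) {Z : List ι} (hZ : Z.Sublist l) : Z.toFinset.card = Z.length :=
  List.toFinset_card_of_nodup (hl.sublist hZ)

def Spec (c : Bool → List ι → ℕ → Bool) (l : List ι) (p : Bool → Finset ι → ℤ) : Prop :=
  ∀ i W t, c i W t = true ↔ Cov l.toFinset (p i) W.toFinset t

theorem qq_iff (hc : Spec c l p) (i : Bool) {Z : List ι} (hZ : Z.Sublist l) :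
    qq c l m1 m2 i Z = true ↔ Q l.toFinset (p i) m1 m2 Z.toFinset := by
  simp only [qq, Bool.and_eq_true, hc i, cpl_fs, Q, sub_fs hZ, true_and]

theorem foldA (hc : Spec c l p) (i : Bool) (l' : List ι) (hl' : ∀ v ∈ l', v ∈ l) (Z : List ι)
    (hZ : Z.Sublist l) (hU : Cov l.toFinset (p i) (l.toFinset \ Z.toFinset) m1) :
    (l'.foldl (fA c l m1 i) Z).Sublist l ∧
      Cov l.toFinset (p i) (l.toFinset \ (l'.foldl (fA c l m1 i) Z).toFinset) m1 ∧
      Z.toFinset ⊆ (l'.foldl (fA c l m1 i) Z).toFinset ∧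
      ∀ v ∈ l', v ∉ (l'.foldl (fA c l m1 i) Z).toFinset →
        ¬ Cov l.toFinset (p i) (l.toFinset \ insert v (l'.foldl (fA c l m1 i) Z).toFinset) m1 := by
  induction l' generalizing Z with
  | nil => exact ⟨hZ, hU, subset_rfl, by simp⟩
  | cons v l' ih =>
    have hv : v ∈ l := hl' v (by simp)
    rw [List.foldl_cons]
    by_cases h : c i (cpl l (ins l Z v)) m1 = true
    · have e : fA c l m1 i Z v = ins l Z v := by simp [fA, h]
      rw [e]
      obtain ⟨h1, h2, h3, h4⟩ := ih (fun w hw => hl' w (by simp [hw])) (ins l Z v)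
        List.filter_sublist (by rwa [hc, cpl_fs] at h)
      rw [ins_fs hZ hv] at h3
      refine ⟨h1, h2, (subset_insert _ _).trans h3, fun w hw hw' => ?_⟩
      rcases List.mem_cons.1 hw with rfl | hw
      · exact absurd (h3 (mem_insert_self _ _)) hw'
      · exact h4 w hw hw'
    · have e : fA c l m1 i Z v = Z := by simp [fA, h]
      rw [e]
      obtain ⟨h1, h2, h3, h4⟩ := ih (fun w hw => hl' w (by simp [hw])) Z hZ hU
      refine ⟨h1, h2, h3, fun w hw hw' => ?_⟩
      rcases List.mem_cons.1 hw with rfl | hw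
      · intro h5
        apply h
        rw [hc, cpl_fs, ins_fs hZ hv]
        exact h5.mono (sdiff_subset_sdiff subset_rfl (insert_subset_insert _ h3))
      · exact h4 w hw hw'

theorem foldB (hl : l.Nodup) (hc : Spec c l p) (i : Bool) (l' : List ι) (Z : List ι)
    (hZ : Z.Sublist l) (hq : Q l.toFinset (p i) m1 m2 Z.toFinset) :
    (l'.foldl (fB c l m2 r i) Z).Sublist l ∧
      Q l.toFinset (p i) m1 m2 (l'.foldl (fB c l m2 r i) Z).toFinset ∧
      (l'.foldl (fB c l m2 r i) Z).toFinset ⊆ Z.toFinset ∧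
      (r ≤ Z.length → r ≤ (l'.foldl (fB c l m2 r i) Z).length) ∧
      (r < (l'.foldl (fB c l m2 r i) Z).length → ∀ u ∈ l', u ∈ (l'.foldl (fB c l m2 r i) Z).toFinset →
        ¬ Cov l.toFinset (p i) ((l'.foldl (fB c l m2 r i) Z).toFinset.erase u) m2) := by
  induction l' generalizing Z with
  | nil => exact ⟨hZ, hq, subset_rfl, id, by simp⟩
  | cons v l' ih =>
    rw [List.foldl_cons]
    by_cases h : (decide (r < Z.length) && decide (v ∈ Z) && c i (del l Z v) m2) = true
    · have e : fB c l m2 r i Z v = del l Z v := by simp only [fB, h, cond_true]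
      rw [e]
      simp only [Bool.and_eq_true, decide_eq_true_eq, hc i, del_fs v hZ] at h
      have hs : (del l Z v).Sublist l := List.filter_sublist
      obtain ⟨h1, h2, h3, h4, h5⟩ := ih (del l Z v) hs (by
        rw [del_fs v hZ]
        exact ⟨(erase_subset _ _).trans hq.1, h.2,
          hq.2.2.mono (sdiff_subset_sdiff subset_rfl (erase_subset _ _))⟩)
      rw [del_fs v hZ] at h3
      refine ⟨h1, h2, h3.trans (erase_subset _ _), fun _ => h4 ?_, fun hr w hw hw' => ?_⟩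
      · rw [← len_fs hl hs, del_fs v hZ, card_erase_of_mem (by simpa using h.1.2), len_fs hl hZ]
        omega
      · rcases List.mem_cons.1 hw with rfl | hw
        · exact absurd (h3 hw') (notMem_erase _ _)
        · exact h5 hr w hw hw'
    · have e : fB c l m2 r i Z v = Z := by
        simp only [fB, Bool.not_eq_true _ ▸ h, cond_false]
      rw [e]
      obtain ⟨h1, h2, h3, h4, h5⟩ := ih Z hZ hq
      refine ⟨h1, h2, h3, h4, fun hr w hw hw' => ?_⟩
      rcases List.mem_cons.1 hw with rfl | hw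
      · intro h6
        apply h
        simp only [Bool.and_eq_true, decide_eq_true_eq, hc i, del_fs w hZ]
        have := card_le_card h3
        rw [len_fs hl h1, len_fs hl hZ] at this
        exact ⟨⟨by omega, by simpa using h3 hw'⟩, h6.mono (erase_subset_erase _ h3)⟩
      · exact h5 hr w hw hw'

theorem phB_spec (hl : l.Nodup) (hc : Spec c l p) (i : Bool) (hs : Skew l.toFinset (p i))
    (hb : Bnd l.toFinset (p i) (m1 + m2)) :
    (phB c l m1 m2 r i).Sublist l ∧ Q l.toFinset (p i) m1 m2 (phB c l m1 m2 r i).toFinset ∧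
      ∀ K z, Wit l.toFinset (p i) m1 m2 K z → ∑ x ∈ l.toFinset, z x = K * r →
        (phB c l m1 m2 r i).length = r := by
  obtain ⟨a1, a2, -, a4⟩ := foldA (m1 := m1) hc i l (fun _ h => h) [] (List.nil_sublist _) (by
    intro X hX
    have := (hb X hX).1
    rw [List.toFinset_nil, sdiff_empty, inter_eq_left.2 hX]; omega)
  have hno : ∀ v ∈ l.toFinset \ (phA c l m1 i).toFinset,
      ¬ Cov l.toFinset (p i) (l.toFinset \ insert v (phA c l m1 i).toFinset) m1 :=
    fun v hv => a4 v (by simpa using (mem_sdiff.1 hv).1) (mem_sdiff.1 hv).2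
  have hq : Q l.toFinset (p i) m1 m2 (phA c l m1 i).toFinset :=
    ⟨sub_fs a1, max_cov hs hb a2 hno, a2⟩
  obtain ⟨b1, b2, -, b4, b5⟩ := foldB (r := r) hl hc i l (phA c l m1 i) a1 hq
  refine ⟨b1, b2, fun K z hw hsum => ?_⟩
  have hK := hw.pos
  have e1 := no_add hs hq hw hno
  rw [hsum, len_fs (Z := phA c l m1 i) hl a1] at e1
  have e2 := b4 (by exact_mod_cast le_of_mul_le_mul_left e1 hK)
  by_contra hne
  have e3 := no_del hs b2 hw (fun u hu => b5 (lt_of_le_of_ne e2 (Ne.symm hne)) u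
    (by simpa using sub_fs b1 hu) hu)
  rw [hsum, len_fs hl b1] at e3
  have e4 : (phB c l m1 m2 r i).length ≤ r := by exact_mod_cast le_of_mul_le_mul_left e3 hK
  exact hne (le_antisymm e4 e2)

theorem a1_iff (hc : Spec c l p) {B : List ι} (hB : B.Sublist l) {x y : ι} (hy : y ∈ l) :
    a1 c l m1 m2 B x y = true ↔ Arc1 l.toFinset (Q l.toFinset (p true) m1 m2) B.toFinset x y := by
  have : (exch l B x y).Sublist l := List.filter_sublist
  simp only [a1, Bool.and_eq_true, decide_eq_true_eq, qq_iff hc true this, exch_fs x hB hy, Arc1,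
    List.mem_toFinset, hy, true_and, and_assoc]

theorem a2_iff (hc : Spec c l p) {B : List ι} (hB : B.Sublist l) {x y : ι} (hx : x ∈ l) :
    a2 c l m1 m2 B x y = true ↔ Arc2 l.toFinset (Q l.toFinset (p false) m1 m2) B.toFinset x y := by
  have : (exch l B y x).Sublist l := List.filter_sublist
  simp only [a2, Bool.and_eq_true, decide_eq_true_eq, qq_iff hc false this, exch_fs y hB hx, Arc2,
    List.mem_toFinset, hx, true_and, and_assoc]

abbrev RR (l : List ι) (p : Bool → Finset ι → ℤ) (m1 m2 : ℕ) (B : List ι × List ι) : ℕ → ι → Prop :=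
  Reach l.toFinset (Q l.toFinset (p true) m1 m2) (Q l.toFinset (p false) m1 m2)
    B.1.toFinset B.2.toFinset

theorem RR_mem {B : List ι × List ι} (h1 : B.1.Sublist l) (h2 : B.2.Sublist l) {j : ℕ} {x : ι}
    (h : RR l p m1 m2 B j x) : x ∈ l := by
  simpa using Reach.mem (sub_fs h1) (sub_fs h2) h

theorem nxt_iff (hc : Spec c l p) {B : List ι × List ι} (h1 : B.1.Sublist l) (h2 : B.2.Sublist l)
    {D : List ι} {j : ℕ} (hD : ∀ x, x ∈ D ↔ RR l p m1 m2 B j x) (x : ι) :
    x ∈ nxt c l m1 m2 B D ↔ RR l p m1 m2 B (j + 1) x := by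
  simp only [nxt, List.mem_filter, Bool.or_eq_true, decide_eq_true_eq, List.any_eq_true, hD]
  constructor
  · rintro ⟨hx, h | ⟨y, hy, h | h⟩⟩
    · exact Or.inl h
    · exact Or.inr ⟨y, hy, Or.inl ((a1_iff hc h1 (RR_mem h1 h2 hy)).1 h)⟩
    · exact Or.inr ⟨y, hy, Or.inr ((a2_iff hc h2 hx).1 h)⟩
  · intro h
    have hx := RR_mem h1 h2 h
    refine ⟨hx, ?_⟩
    rcases h with h | ⟨y, hy, h | h⟩
    · exact Or.inl h
    · exact Or.inr ⟨y, hy, Or.inl ((a1_iff hc h1 (RR_mem h1 h2 hy)).2 h)⟩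
    · exact Or.inr ⟨y, hy, Or.inr ((a2_iff hc h2 hx).2 h)⟩

theorem src_iff {B : List ι × List ι} {x : ι} :
    src B x = true ↔ x ∈ B.1.toFinset ∧ x ∉ B.2.toFinset := by simp [src]

theorem grow_spec (hc : Spec c l p) {B : List ι × List ι} (h1 : B.1.Sublist l)
    (h2 : B.2.Sublist l) (t : ℕ) :
    ∃ j, (∀ x, x ∈ (grow c l m1 m2 B)^[t] (lay0 l B) ↔ RR l p m1 m2 B j x) ∧
      (∀ s ∈ B.1.toFinset, s ∉ B.2.toFinset → ¬ RR l p m1 m2 B j s) ∧
      (j = t ∨ ∃ s ∈ B.1.toFinset, s ∉ B.2.toFinset ∧ RR l p m1 m2 B (j + 1) s) := by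
  induction t with
  | zero =>
    refine ⟨0, fun x => ?_, fun s _ hs h => hs h.1, Or.inl rfl⟩
    simp only [lay0, Function.iterate_zero, id, List.mem_filter, Bool.and_eq_true,
      decide_eq_true_eq, RR, Reach, List.mem_toFinset]
    exact ⟨fun h => h.2, fun h => ⟨h2.subset h.1, h⟩⟩
  | succ t ih =>
    obtain ⟨j, a, b, d⟩ := ih
    rw [Function.iterate_succ_apply']
    by_cases h : (nxt c l m1 m2 B ((grow c l m1 m2 B)^[t] (lay0 l B))).any (src B) = true
    · refine ⟨j, by simpa only [grow, h, cond_true] using a, b, Or.inr ?_⟩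
      obtain ⟨s, hs1, hs2⟩ := List.any_eq_true.1 h
      exact ⟨s, (src_iff.1 hs2).1, (src_iff.1 hs2).2, (nxt_iff hc h1 h2 a s).1 hs1⟩
    · have hno : ∀ s ∈ B.1.toFinset, s ∉ B.2.toFinset → ¬ RR l p m1 m2 B (j + 1) s :=
        fun s hs1 hs2 hs => h (List.any_eq_true.2 ⟨s, (nxt_iff hc h1 h2 a s).2 hs,
          src_iff.2 ⟨hs1, hs2⟩⟩)
      refine ⟨j + 1, ?_, hno, Or.inl ?_⟩
      · have e : grow c l m1 m2 B ((grow c l m1 m2 B)^[t] (lay0 l B)) =
            nxt c l m1 m2 B ((grow c l m1 m2 B)^[t] (lay0 l B)) := by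
          rw [grow, Bool.eq_false_iff.2 h, cond_false]
        rw [e]
        exact nxt_iff hc h1 h2 a
      · rcases d with d | ⟨s, d1, d2, d3⟩
        · rw [d]
        · exact absurd d3 (hno s d1 d2)

structure Inv (l : List ι) (p : Bool → Finset ι → ℤ) (m1 m2 r : ℕ) (B : List ι × List ι) : Prop where
  s1 : B.1.Sublist l
  s2 : B.2.Sublist l
  q1 : Q l.toFinset (p true) m1 m2 B.1.toFinset
  q2 : Q l.toFinset (p false) m1 m2 B.2.toFinset
  c1 : B.1.toFinset.card = r
  c2 : B.2.toFinset.card = r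

abbrev GG (l : List ι) (p : Bool → Finset ι → ℤ) (m1 m2 : ℕ) (B : List ι × List ι) (N : ℕ) : Prop :=
  Good l.toFinset (Q l.toFinset (p true) m1 m2) (Q l.toFinset (p false) m1 m2)
    B.1.toFinset B.2.toFinset N

theorem stp_spec (hl : l.Nodup) (hc : Spec c l p) (hs : ∀ i, Skew l.toFinset (p i))
    (hb : ∀ i, Bnd l.toFinset (p i) (m1 + m2)) {B : List ι × List ι} (hB : Inv l p m1 m2 r B) :
    Inv l p m1 m2 r (stp c l m1 m2 B) ∧
      ∀ K z N, (∀ i, Wit l.toFinset (p i) m1 m2 K z) → ∑ x ∈ l.toFinset, z x = K * r →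
        GG l p m1 m2 B (N + 1) → GG l p m1 m2 (stp c l m1 m2 B) N := by
  obtain ⟨j, a, b, d⟩ := grow_spec (m1 := m1) (m2 := m2) hc hB.s1 hB.s2 l.length
  change (∀ x, x ∈ lay c l m1 m2 B ↔ _) at a
  unfold stp
  rcases e1 : (l ×ˢ lay c l m1 m2 B).filter (fun q => src B q.1 && a1 c l m1 m2 B.1 q.1 q.2) with
    _ | ⟨q, L⟩
  · rcases e2 : (l ×ˢ lay c l m1 m2 B).filter (fun q => src B q.1 && a2 c l m1 m2 B.2 q.1 q.2) with
      _ | ⟨q, L⟩
    · rw [e1, e2]; simp only [lcase_nil]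
      refine ⟨hB, fun K z N hw hsum hg => Or.inl ?_⟩
      rcases hg with hg | ⟨j', hj', s, h1, h2, h3, -⟩
      · exact hg
      exfalso
      rcases d with rfl | ⟨s, h1, h2, h3 | ⟨y, hy, h3 | h3⟩⟩
      · rw [List.toFinset_card_of_nodup hl] at hj'
        exact b s h1 h2 (h3.mono hj')
      · exact b s h1 h2 h3
      · have : (s, y) ∈ (l ×ˢ lay c l m1 m2 B).filter
            (fun q => src B q.1 && a1 c l m1 m2 B.1 q.1 q.2) := by
          simp only [List.mem_filter, List.mem_product, Bool.and_eq_true]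
          exact ⟨⟨by simpa using sub_fs hB.s1 h1, (a y).2 hy⟩, src_iff.2 ⟨h1, h2⟩,
            (a1_iff hc hB.s1 (RR_mem hB.s1 hB.s2 hy)).2 h3⟩
        rw [e1] at this; simp at this
      · have hsl : s ∈ l := by simpa using sub_fs hB.s1 h1
        have : (s, y) ∈ (l ×ˢ lay c l m1 m2 B).filter
            (fun q => src B q.1 && a2 c l m1 m2 B.2 q.1 q.2) := by
          simp only [List.mem_filter, List.mem_product, Bool.and_eq_true]
          exact ⟨⟨hsl, (a y).2 hy⟩, src_iff.2 ⟨h1, h2⟩, (a2_iff hc hB.s2 hsl).2 h3⟩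
        rw [e2] at this; simp at this
    · rw [e1, e2]; simp only [lcase_nil, lcase_cons]
      obtain ⟨s, y⟩ := q
      have hq : (s, y) ∈ (l ×ˢ lay c l m1 m2 B).filter
          (fun q => src B q.1 && a2 c l m1 m2 B.2 q.1 q.2) := by rw [e2]; simp
      simp only [List.mem_filter, List.mem_product, Bool.and_eq_true] at hq
      obtain ⟨⟨h1, h2⟩, h3, h4⟩ := hq
      have h5 := (a2_iff hc hB.s2 h1).1 h4
      have e := exch_fs y hB.s2 h1
      refine ⟨⟨hB.s1, List.filter_sublist, hB.q1, by rw [e]; exact h5.2.2.2, hB.c1,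
        by rw [e, card_exch h5.2.2.1 h5.2.1, hB.c2]⟩, fun K z N hw hsum hg => ?_⟩
      simp only [GG, e]
      exact good_step2 (hs true) (hb true) (hs false) (hb false) hB.q1 (hw true) (hw false)
        (by rw [hB.c1, hB.c2]) (by rw [hB.c1, hsum]) (src_iff.1 h3).1 b ((a y).1 h2) h5 hg
  · rw [e1]; simp only [lcase_cons]
    obtain ⟨s, y⟩ := q
    have hq : (s, y) ∈ (l ×ˢ lay c l m1 m2 B).filter
        (fun q => src B q.1 && a1 c l m1 m2 B.1 q.1 q.2) := by rw [e1]; simp
    simp only [List.mem_filter, List.mem_product, Bool.and_eq_true] at hq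
    obtain ⟨⟨h1, h2⟩, h3, h4⟩ := hq
    have hy := RR_mem hB.s1 hB.s2 ((a y).1 h2)
    have h5 := (a1_iff hc hB.s1 hy).1 h4
    have e := exch_fs s hB.s1 hy
    refine ⟨⟨List.filter_sublist, hB.s2, by rw [e]; exact h5.2.2.2, hB.q2,
      by rw [e, card_exch h5.1 h5.2.2.1, hB.c1], hB.c2⟩, fun K z N hw hsum hg => ?_⟩
    simp only [GG, e]
    exact good_step1 (hs true) (hb true) (hs false) (hb false) hB.q2 (hw true) (hw false)
      (by rw [hB.c1, hB.c2]) (by rw [hB.c1, hsum]) (src_iff.1 h3).2 b ((a y).1 h2) h5 hg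

theorem iter_spec (hl : l.Nodup) (hc : Spec c l p) (hs : ∀ i, Skew l.toFinset (p i))
    (hb : ∀ i, Bnd l.toFinset (p i) (m1 + m2)) (t : ℕ) {B : List ι × List ι}
    (hB : Inv l p m1 m2 r B) :
    Inv l p m1 m2 r ((stp c l m1 m2)^[t] B) ∧
      ∀ K z, (∀ i, Wit l.toFinset (p i) m1 m2 K z) → ∑ x ∈ l.toFinset, z x = K * r →
        GG l p m1 m2 B t → GG l p m1 m2 ((stp c l m1 m2)^[t] B) 0 := by
  induction t generalizing B with
  | zero => exact ⟨hB, fun _ _ _ _ h => h⟩
  | succ t ih =>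
    obtain ⟨a, b⟩ := stp_spec hl hc hs hb hB
    obtain ⟨a', b'⟩ := ih a
    exact ⟨a', fun K z hw hsum hg => b' K z hw hsum (b K z t hw hsum hg)⟩

theorem answer_sound (hl : l.Nodup) (hc : Spec c l p) (hs : ∀ i, Skew l.toFinset (p i))
    (hb : ∀ i, Bnd l.toFinset (p i) (m1 + m2)) (h : answer c l m1 m2 r = true) :
    ∃ Z : Finset ι, Z.card = r ∧ ∀ i, Q l.toFinset (p i) m1 m2 Z := by
  simp only [answer, Bool.and_eq_true, decide_eq_true_eq, List.all_eq_true, beq_iff_eq,
    decide_eq_decide] at h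
  obtain ⟨a1, a2, -⟩ := phB_spec (r := r) hl hc true (hs true) (hb true)
  obtain ⟨b1, b2, -⟩ := phB_spec (r := r) hl hc false (hs false) (hb false)
  have hI : Inv l p m1 m2 r (fin c l m1 m2 r) := (iter_spec hl hc hs hb _
    ⟨a1, b1, a2, b2, by rw [len_fs hl a1, h.1.1], by rw [len_fs hl b1, h.1.2]⟩).1
  have e : (fin c l m1 m2 r).1.toFinset = (fin c l m1 m2 r).2.toFinset := by
    ext x
    simp only [List.mem_toFinset]
    exact ⟨fun hx => (h.2 x (hI.s1.subset hx)).1 hx, fun hx => (h.2 x (hI.s2.subset hx)).2 hx⟩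
  refine ⟨_, hI.c1, fun i => ?_⟩
  cases i
  · rw [e]; exact hI.q2
  · exact hI.q1

theorem answer_complete (hl : l.Nodup) (hc : Spec c l p) (hs : ∀ i, Skew l.toFinset (p i))
    (hb : ∀ i, Bnd l.toFinset (p i) (m1 + m2)) {K : ℤ} {z : ι → ℤ}
    (hw : ∀ i, Wit l.toFinset (p i) m1 m2 K z) (hsum : ∑ x ∈ l.toFinset, z x = K * r) :
    answer c l m1 m2 r = true := by
  obtain ⟨a1, a2, a3⟩ := phB_spec (r := r) hl hc true (hs true) (hb true)
  obtain ⟨b1, b2, b3⟩ := phB_spec (r := r) hl hc false (hs false) (hb false)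
  have a4 := a3 K z (hw true) hsum
  have b4 := b3 K z (hw false) hsum
  have hI : Inv l p m1 m2 r (phB c l m1 m2 r true, phB c l m1 m2 r false) :=
    ⟨a1, b1, a2, b2, by rw [len_fs hl a1, a4], by rw [len_fs hl b1, b4]⟩
  have hg := good_zero ((iter_spec hl hc hs hb ((l.length + 1) * (l.length + 1)) hI).2 K z hw hsum
    (good_of (hs true) (hb true) (hs false) (hb false) a2 b2 (hw true) (hw false)
      (by rw [hI.c1, hI.c2]) (by rw [hI.c1, hsum]) (by
        have h1 := card_le_card ((sdiff_subset (t := (phB c l m1 m2 r false).toFinset)).trans a2.1)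
        rw [List.toFinset_card_of_nodup hl] at h1 ⊢
        nlinarith)))
  simp only [answer, Bool.and_eq_true, decide_eq_true_eq, List.all_eq_true, beq_iff_eq,
    decide_eq_decide]
  refine ⟨⟨a4, b4⟩, fun x _ => ?_⟩
  rw [← List.mem_toFinset, ← List.mem_toFinset]
  exact Iff.of_eq (congrArg (x ∈ ·) hg)

theorem answer_iff (hl : l.Nodup) (hc : Spec c l p) (hs : ∀ i, Skew l.toFinset (p i))
    (hb : ∀ i, Bnd l.toFinset (p i) (m1 + m2)) :
    (∃ Z : Finset ι, Z.card = r ∧ ∀ i, Q l.toFinset (p i) m1 m2 Z) ↔ answer c l m1 m2 r = true := by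
  refine ⟨fun ⟨Z, h1, h2⟩ => ?_, answer_sound hl hc hs hb⟩
  exact answer_complete hl hc hs hb (fun i => wit_of_Q (h2 i))
    (by rw [sum_ind, inter_eq_right.2 (h2 true).1, h1, one_mul])

end

theorem exists_common {S : Finset ι} {p : Bool → Finset ι → ℤ} {m1 m2 r : ℕ}
    (hs : ∀ i, Skew S (p i)) (hb : ∀ i, Bnd S (p i) (m1 + m2)) {K : ℤ} {z : ι → ℤ}
    (hw : ∀ i, Wit S (p i) m1 m2 K z) (hsum : ∑ x ∈ S, z x = K * r) :
    ∃ Z : Finset ι, Z.card = r ∧ ∀ i, Q S (p i) m1 m2 Z := by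
  classical
  have e := S.toList_toFinset
  have hc : Spec (fun i W t => decide (Cov S (p i) W.toFinset t)) S.toList p := by
    intro i W t; simp
  have := answer_sound (r := r) S.nodup_toList hc (by rwa [e]) (by rwa [e])
    (answer_complete S.nodup_toList hc (by rwa [e]) (by rwa [e]) (K := K) (z := z) (by rwa [e])
      (by rwa [e]))
  rwa [e] at this

end Pool.Agent.H.MP_1195b1_lc
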