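import Pool.Agent.H.MP_1195b1_lc.C

set_option autoImplicit false
set_option linter.unusedSectionVars false
open Finset

namespace Pool.Agent.H.MP_1195b1_lc

variable {ι : Type} [DecidableEq ι]

theorem restrict {S T : Finset ι} {p h : Finset ι → ℤ} (hT : T ⊆ S) (hs : Skew S p)
    (hm : ∀ X Y, X ⊆ Y → h X ≤ h Y) (hsub : ∀ X Y, h (X ∩ Y) + h (X ∪ Y) ≤ h X + h Y) :
    ∃ ρ : Finset ι → ℤ, Skew T ρ ∧ (∀ X ⊆ S, p X - h X ≤ ρ (X ∩ T)) ∧
      ∀ W ⊆ T, ∃ X ⊆ S, X ∩ T = W ∧ ρ W = p X - h X := by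
  let ρ : Finset ι → ℤ := fun W =>
    (S \ T).powerset.sup' ⟨∅, empty_mem_powerset _⟩ (fun Y => p (W ∪ Y) - h (W ∪ Y))
  have h2 : ∀ X ⊆ S, p X - h X ≤ ρ (X ∩ T) := by
    intro X hX
    have := le_sup' (fun Y => p (X ∩ T ∪ Y) - h (X ∩ T ∪ Y))
      (mem_powerset.2 (sdiff_subset_sdiff hX subset_rfl : X \ T ⊆ S \ T))
    rwa [union_comm, sdiff_union_inter] at this
  have h3 : ∀ W ⊆ T, ∃ X ⊆ S, X ∩ T = W ∧ ρ W = p X - h X := by
    intro W hW
    obtain ⟨Y, hY, e⟩ := exists_mem_eq_sup' (⟨∅, empty_mem_powerset _⟩ : (S \ T).powerset.Nonempty)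
      (fun Y => p (W ∪ Y) - h (W ∪ Y))
    have hY' := mem_powerset.1 hY
    refine ⟨W ∪ Y, union_subset (hW.trans hT) (hY'.trans sdiff_subset), ?_, e⟩
    ext a
    simp only [mem_inter, mem_union]
    constructor
    · rintro ⟨h1 | h1, h2⟩
      · exact h1
      · exact absurd h2 (mem_sdiff.1 (hY' h1)).2
    · exact fun h1 => ⟨Or.inl h1, hW h1⟩
  refine ⟨ρ, fun W1 hW1 W2 hW2 => ?_, h2, h3⟩
  obtain ⟨X1, a1, rfl, b1⟩ := h3 W1 hW1
  obtain ⟨X2, a2, rfl, b2⟩ := h3 W2 hW2
  rcases hs X1 a1 X2 a2 with h4 | h4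
  · left
    have c1 := h2 (X1 ∩ X2) (inter_subset_left.trans a1)
    have c2 := h2 (X1 ∪ X2) (union_subset a1 a2)
    have c3 := hsub X1 X2
    rw [show X1 ∩ T ∩ (X2 ∩ T) = X1 ∩ X2 ∩ T by ext; simp only [mem_inter]; tauto,
      show X1 ∩ T ∪ X2 ∩ T = (X1 ∪ X2) ∩ T by ext; simp; tauto]
    omega
  · right
    have c1 := h2 (X1 \ X2) (sdiff_subset.trans a1)
    have c2 := h2 (X2 \ X1) (sdiff_subset.trans a2)
    have c3 := hm (X1 \ X2) X1 sdiff_subset
    have c4 := hm (X2 \ X1) X2 sdiff_subset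
    rw [show (X1 ∩ T) \ (X2 ∩ T) = (X1 \ X2) ∩ T by ext; simp; tauto,
      show (X2 ∩ T) \ (X1 ∩ T) = (X2 \ X1) ∩ T by ext; simp; tauto]
    omega

def meets (P : Finset (Finset ι)) (X : Finset ι) : ℕ :=
  (P.filter (fun Y => (Y ∩ X).Nonempty)).card

theorem meets_mono (P : Finset (Finset ι)) {X Y : Finset ι} (h : X ⊆ Y) : meets P X ≤ meets P Y :=
  card_le_card (fun _ ha => mem_filter.2 ⟨(mem_filter.1 ha).1,
    (mem_filter.1 ha).2.mono (inter_subset_inter_left h)⟩)

theorem meets_sub (P : Finset (Finset ι)) (X Y : Finset ι) :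
    meets P (X ∩ Y) + meets P (X ∪ Y) ≤ meets P X + meets P Y := by
  have := card_union_add_card_inter (P.filter (fun T => (T ∩ X).Nonempty))
    (P.filter (fun T => (T ∩ Y).Nonempty))
  have h1 : meets P (X ∩ Y) ≤ (P.filter (fun T => (T ∩ X).Nonempty) ∩
      P.filter (fun T => (T ∩ Y).Nonempty)).card := card_le_card (fun a ha => by
    rw [mem_filter] at ha
    exact mem_inter.2 ⟨mem_filter.2 ⟨ha.1, ha.2.mono (inter_subset_inter_left inter_subset_left)⟩,
      mem_filter.2 ⟨ha.1, ha.2.mono (inter_subset_inter_left inter_subset_right)⟩⟩)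
  have h2 : meets P (X ∪ Y) ≤ (P.filter (fun T => (T ∩ X).Nonempty) ∪
      P.filter (fun T => (T ∩ Y).Nonempty)).card := card_le_card (fun a ha => by
    rw [mem_filter, inter_union_distrib_left, union_nonempty] at ha
    rcases ha.2 with h | h
    · exact mem_union_left _ (mem_filter.2 ⟨ha.1, h⟩)
    · exact mem_union_right _ (mem_filter.2 ⟨ha.1, h⟩))
  unfold meets at *
  omega

theorem meets_le_card (P : Finset (Finset ι)) (X : Finset ι) : meets P X ≤ P.card :=
  card_filter_le _ _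

theorem meets_le_inter {P : Finset (Finset ι)} (hd : (P : Set (Finset ι)).PairwiseDisjoint id)
    (X : Finset ι) : meets P X ≤ (X ∩ P.biUnion id).card := by
  rw [inter_biUnion, card_biUnion (fun a ha b hb hab =>
    Disjoint.mono inter_subset_right inter_subset_right (hd ha hb hab)), meets, card_filter]
  refine sum_le_sum (fun a _ => ?_)
  split_ifs with h
  · rw [inter_comm] at h; exact card_pos.2 h
  · exact Nat.zero_le _

theorem meets_union {P1 P2 : Finset (Finset ι)} (h : Disjoint P1 P2) (X : Finset ι) :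
    meets (P1 ∪ P2) X = meets P1 X + meets P2 X := by
  rw [meets, filter_union, card_union_of_disjoint (h.mono (filter_subset _ _) (filter_subset _ _))]
  rfl

structure Fam (S : Finset ι) (P : Finset (Finset ι)) (m n : ℕ) : Prop where
  disj : (P : Set (Finset ι)).PairwiseDisjoint id
  sup : P.biUnion id = S
  card : P.card = m
  size : ∀ Y ∈ P, Y.card = n

theorem Fam.sub {S : Finset ι} {P : Finset (Finset ι)} {m n : ℕ} (h : Fam S P m n) {Y : Finset ι}
    (hY : Y ∈ P) : Y ⊆ S := h.sup ▸ subset_biUnion_of_mem id hY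

theorem Fam.meets_inter {S : Finset ι} {P : Finset (Finset ι)} {m n : ℕ} (h : Fam S P m n)
    (X : Finset ι) : meets P (X ∩ S) = meets P X := by
  unfold meets
  congr 1
  refine filter_congr (fun Y hY => ?_)
  rw [inter_comm X S, ← inter_assoc, inter_eq_left.2 (h.sub hY)]

def Colourable (ι : Type) [DecidableEq ι] (m n : ℕ) : Prop :=
  ∀ (T : Finset ι) (ρ : Bool → Finset ι → ℤ), T.card = m * n → (∀ i, Skew T (ρ i)) →
    (∀ i, Bnd T (ρ i) m) → ∃ P, Fam T P m n ∧ ∀ i, ∀ W ⊆ T, ρ i W ≤ meets P W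

theorem combine {S Z : Finset ι} {p : Bool → Finset ι → ℤ} {m1 m2 n1 n2 : ℕ}
    (c1 : Colourable ι m1 n1) (c2 : Colourable ι m2 n2) (hs : ∀ i, Skew S (p i))
    (hb : ∀ i, Bnd S (p i) (m1 + m2)) (hq : ∀ i, Q S (p i) m1 m2 Z) (h1 : Z.card = m1 * n1)
    (h2 : (S \ Z).card = m2 * n2) :
    ∃ P1 P2, Fam Z P1 m1 n1 ∧ Fam (S \ Z) P2 m2 n2 ∧
      ∀ i, ∀ X ⊆ S, p i X ≤ meets P1 X + meets P2 X := by
  have hZ := (hq true).1
  have spl : ∀ X ⊆ S, X.card = (X ∩ (S \ Z)).card + (X ∩ Z).card := fun X hX =>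
    card_compl_split (S := S) sdiff_disjoint
      (by rw [sdiff_union_self_eq_union]; exact subset_union_left) hX
  choose ρ r1 r2 r3 using fun i => restrict (h := fun X => min ((X ∩ (S \ Z)).card : ℤ) m2) hZ
    (hs i) (fun X Y h => by
      have := card_le_card (inter_subset_inter_right h : X ∩ (S \ Z) ⊆ Y ∩ (S \ Z))
      omega) (fun X Y => by
      have a := split1 X Y (S \ Z)
      have b := split2 X Y (S \ Z)
      have c := split3 X Y (S \ Z)
      omega)
  obtain ⟨P1, f1, g1⟩ := c1 Z ρ h1 r1 (fun i W hW => by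
    obtain ⟨X, hX, rfl, e⟩ := r3 i W hW
    have a := spl X hX
    have b := hb i X hX
    have c := (hq i).2.1 X hX
    have d := (hq i).2.2 X hX
    push_cast at b
    omega)
  choose σ s1 s2 s3 using fun i => restrict (T := S \ Z) (h := fun X => (meets P1 X : ℤ))
    sdiff_subset (hs i) (fun X Y h => by exact_mod_cast meets_mono P1 h)
    (fun X Y => by exact_mod_cast meets_sub P1 X Y)
  obtain ⟨P2, f2, g2⟩ := c2 (S \ Z) σ h2 s1 (fun i W hW => by
    obtain ⟨X, hX, rfl, e⟩ := s3 i W hW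
    have a := r2 i X hX
    have b := g1 i (X ∩ Z) inter_subset_right
    rw [f1.meets_inter] at b
    omega)
  refine ⟨P1, P2, f1, f2, fun i X hX => ?_⟩
  have a := s2 i X hX
  have b := g2 i (X ∩ (S \ Z)) inter_subset_right
  rw [f2.meets_inter] at b
  omega

theorem fam_disjoint {S Z : Finset ι} {P1 P2 : Finset (Finset ι)} {m1 m2 n1 n2 : ℕ} (hn : 0 < n1)
    (f1 : Fam Z P1 m1 n1) (f2 : Fam (S \ Z) P2 m2 n2) : Disjoint P1 P2 := by
  rw [disjoint_left]
  intro Y h1 h2
  obtain ⟨a, ha⟩ := card_pos.1 (by rw [f1.size Y h1]; exact hn)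
  exact (mem_sdiff.1 (f2.sub h2 ha)).2 (f1.sub h1 ha)

theorem fam_union_disj {S Z : Finset ι} {P1 P2 : Finset (Finset ι)} {m1 m2 n1 n2 : ℕ}
    (f1 : Fam Z P1 m1 n1) (f2 : Fam (S \ Z) P2 m2 n2) :
    ((P1 ∪ P2 : Finset (Finset ι)) : Set (Finset ι)).PairwiseDisjoint id := by
  rw [coe_union]
  exact f1.disj.union f2.disj (fun a ha b hb _ =>
    Disjoint.mono (f1.sub ha) (f2.sub hb) disjoint_sdiff)

theorem fam_union_sup {S Z : Finset ι} {P1 P2 : Finset (Finset ι)} {m1 m2 n1 n2 : ℕ} (hZ : Z ⊆ S)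
    (f1 : Fam Z P1 m1 n1) (f2 : Fam (S \ Z) P2 m2 n2) : (P1 ∪ P2).biUnion id = S := by
  rw [union_biUnion, f1.sup, f2.sup, union_sdiff_of_subset hZ]

theorem colour_one (n : ℕ) : Colourable ι 1 n := by
  intro T ρ hT _ hb
  refine ⟨{T}, ⟨by simp, by simp, by simp, by simpa using hT⟩, fun i W hW => ?_⟩
  have := hb i W hW
  rcases W.eq_empty_or_nonempty with rfl | h
  · simp only [card_empty] at this; omega
  · have : meets {T} W = 1 := by
      rw [meets, filter_singleton, if_pos (by rwa [inter_eq_right.2 hW]), card_singleton]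
    omega

theorem colour {n : ℕ} (hn : 0 < n) (m : ℕ) : Colourable ι m n := by
  induction m with
  | zero =>
    intro T ρ hT _ hb
    have : T = ∅ := by simpa using hT
    subst this
    refine ⟨∅, ⟨by simp, by simp, by simp, by simp⟩, fun i W hW => ?_⟩
    have := (hb i W hW).2
    omega
  | succ m ih =>
    intro T ρ hT hs hb
    have hb' : ∀ i, Bnd T (ρ i) (1 + m) := by rwa [add_comm]
    obtain ⟨Z, hZ, hq⟩ := exists_common (r := n) hs hb' (K := m + 1) (z := fun _ => 1) (fun i =>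
      ⟨by omega, fun _ _ => by omega, fun _ _ => by omega, fun X hX => by
        have := hb i X hX
        simp only [sum_const, nsmul_eq_mul, mul_one]
        push_cast at this
        nlinarith [this.1, this.2], fun X hX => by
        have := hb i X hX
        simp only [sum_const, nsmul_eq_mul, mul_one]
        push_cast at this ⊢
        nlinarith [this.1, this.2]⟩) (by simp [hT])
    obtain ⟨P1, P2, f1, f2, g⟩ := combine (colour_one n) ih hs hb' hq (by rw [hZ, one_mul]) (by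
      rw [card_sdiff_of_subset (hq true).1, hT, hZ, Nat.succ_mul, Nat.add_sub_cancel])
    have hd := fam_disjoint hn f1 f2
    refine ⟨P1 ∪ P2, ⟨fam_union_disj f1 f2, fam_union_sup (hq true).1 f1 f2,
      by rw [card_union_of_disjoint hd, f1.card, f2.card, add_comm], fun Y hY => ?_⟩,
      fun i W hW => by rw [meets_union hd]; exact_mod_cast g i W hW⟩
    rcases mem_union.1 hY with h | h
    · exact f1.size Y h
    · exact f2.size Y h

def Feas (S : Finset ι) (p : Bool → Finset ι → ℤ) (m1 m2 n1 n2 : ℕ) : Prop :=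
  ∃ P : Finpartition S, ∃ A ⊆ P.parts, A.card = m1 ∧ (P.parts \ A).card = m2 ∧
    (∀ Y ∈ A, Y.card = n1) ∧ (∀ Y ∈ P.parts \ A, Y.card = n2) ∧
    ∀ X ⊆ S, ∀ i, p i X ≤ (P.parts.filter (fun Y => (Y ∩ X).Nonempty)).card

theorem feas_iff {S : Finset ι} {p : Bool → Finset ι → ℤ} {m1 m2 n1 n2 : ℕ} (h1 : 0 < n1)
    (h2 : 0 < n2) (hc : m1 * n1 + m2 * n2 = S.card) (hs : ∀ i, Skew S (p i))
    (hb : ∀ i, Bnd S (p i) (m1 + m2)) :
    Feas S p m1 m2 n1 n2 ↔ ∃ Z : Finset ι, Z.card = m1 * n1 ∧ ∀ i, Q S (p i) m1 m2 Z := by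
  constructor
  · rintro ⟨P, A, hA, a1, a2, a3, a4, a5⟩
    have d1 : (A : Set (Finset ι)).PairwiseDisjoint id := P.disjoint.subset (by exact_mod_cast hA)
    have d2 : ((P.parts \ A : Finset _) : Set (Finset ι)).PairwiseDisjoint id :=
      P.disjoint.subset (by exact_mod_cast sdiff_subset)
    have hsub : (P.parts \ A).biUnion id ⊆ S \ A.biUnion id := by
      intro x hx
      obtain ⟨Y, hY, hxY⟩ := mem_biUnion.1 hx
      refine mem_sdiff.2 ⟨P.le (mem_sdiff.1 hY).1 hxY, fun h => ?_⟩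
      obtain ⟨Y', hY', hxY'⟩ := mem_biUnion.1 h
      exact (mem_sdiff.1 hY).2 (P.eq_of_mem_parts (mem_sdiff.1 hY).1 (hA hY') hxY hxY' ▸ hY')
    have e : ∀ X, meets P.parts X = meets A X + meets (P.parts \ A) X := fun X => by
      rw [← meets_union disjoint_sdiff, union_sdiff_of_subset hA]
    refine ⟨A.biUnion id, ?_, fun i => ⟨biUnion_subset.2 (fun Y hY => P.le (hA hY)),
      fun X hX => ?_, fun X hX => ?_⟩⟩
    · rw [card_biUnion d1, sum_congr rfl (f := fun u => (id u : Finset ι).card) (g := fun _ => n1) a3,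
        sum_const, a1, smul_eq_mul]
    · have b1 : p i X ≤ meets P.parts X := a5 X hX i
      have b2 := meets_le_inter d1 X
      have b3 := meets_le_card (P.parts \ A) X
      have := e X
      omega
    · have b1 : p i X ≤ meets P.parts X := a5 X hX i
      have b2 := meets_le_inter d2 X
      have b3 := meets_le_card A X
      have b4 := card_le_card (inter_subset_inter_left (s := X) hsub)
      have := e X
      omega
  · rintro ⟨Z, hZ, hq⟩
    obtain ⟨P1, P2, f1, f2, g⟩ := combine (colour h1 m1) (colour h2 m2) hs hb hq hZ (by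
      rw [card_sdiff_of_subset (hq true).1]; omega)
    have hd := fam_disjoint h1 f1 f2
    have e : (P1 ∪ P2) \ P1 = P2 := union_sdiff_cancel_left hd
    refine ⟨⟨P1 ∪ P2, supIndep_iff_pairwiseDisjoint.2 (fam_union_disj f1 f2), by
      rw [sup_eq_biUnion]; exact fam_union_sup (hq true).1 f1 f2, fun h => ?_⟩, P1,
      subset_union_left, f1.card, by rw [e, f2.card], f1.size, by rw [e]; exact f2.size,
      fun X hX i => ?_⟩
    · rcases mem_union.1 h with h | h
      · have := f1.size _ h; simp at this; omega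
      · have := f2.size _ h; simp at this; omega
    · have := meets_union hd X
      have b := g i X hX
      change p i X ≤ meets (P1 ∪ P2) X
      omega

end Pool.Agent.H.MP_1195b1_lc
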