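import Pool.Agent.H.MP_1195b1_lc.D

set_option autoImplicit false
set_option linter.unusedSectionVars false

namespace Pool.Agent.H.MP_1195b1_lc
open Pool.Agent.Lib.CX

variable {α β : Type} [Enc α] [Enc β]

def cc (O : α × Bool × List ℕ × ℕ → Bool) (a : α) : Bool → List ℕ → ℕ → Bool :=
  fun i W t => O (a, i, W, t)

section
variable {O : α × Bool × List ℕ × ℕ → Bool} {g : β → α} {l Z : β → List ℕ} {m1 m2 r u v : β → ℕ}
  {i : β → Bool} {B : β → List ℕ × List ℕ}

@[fun_prop] theorem PT_cc (hO : PT O) (hg : PT g) (hi : PT i) (hZ : PT Z) (hu : PT u) :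
    PT (fun b => cc O (g b) (i b) (Z b) (u b)) := by unfold cc; fun_prop
@[fun_prop] theorem PT_cpl (hl : PT l) (hZ : PT Z) : PT (fun b => cpl (l b) (Z b)) := by
  unfold cpl; fun_prop
@[fun_prop] theorem PT_ins (hl : PT l) (hZ : PT Z) (hu : PT u) :
    PT (fun b => ins (l b) (Z b) (u b)) := by unfold ins; fun_prop
@[fun_prop] theorem PT_del (hl : PT l) (hZ : PT Z) (hu : PT u) :
    PT (fun b => del (l b) (Z b) (u b)) := by unfold del; fun_prop
@[fun_prop] theorem PT_exch (hl : PT l) (hZ : PT Z) (hu : PT u) (hv : PT v) :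
    PT (fun b => exch (l b) (Z b) (u b) (v b)) := by unfold exch; fun_prop
theorem PT_qq (hO : PT O) (hg : PT g) (hl : PT l) (h1 : PT m1) (h2 : PT m2) (hi : PT i)
    (hZ : PT Z) : PT (fun b => qq (cc O (g b)) (l b) (m1 b) (m2 b) (i b) (Z b)) :=
  (PT_cc hO hg hi hZ h2).and (PT_cc hO hg hi (PT_cpl hl hZ) h1)
theorem PT_fA (hO : PT O) (hg : PT g) (hl : PT l) (h1 : PT m1) (hi : PT i)
    (hZ : PT Z) (hu : PT u) : PT (fun b => fA (cc O (g b)) (l b) (m1 b) (i b) (Z b) (u b)) :=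
  (PT_cc hO hg hi (PT_cpl hl (PT_ins hl hZ hu)) h1).cond (PT_ins hl hZ hu) hZ
theorem PT_fB (hO : PT O) (hg : PT g) (hl : PT l) (h2 : PT m2) (hr : PT r) (hi : PT i)
    (hZ : PT Z) (hu : PT u) : PT (fun b => fB (cc O (g b)) (l b) (m2 b) (r b) (i b) (Z b) (u b)) :=
  (PT.and (by fun_prop) (PT_cc hO hg hi (PT_del hl hZ hu) h2)).cond (PT_del hl hZ hu) hZ
theorem PT_a1 (hO : PT O) (hg : PT g) (hl : PT l) (h1 : PT m1) (h2 : PT m2)
    (hZ : PT Z) (hu : PT u) (hv : PT v) :
    PT (fun b => a1 (cc O (g b)) (l b) (m1 b) (m2 b) (Z b) (u b) (v b)) :=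
  PT.and (by fun_prop) (PT_qq hO hg hl h1 h2 (PT.const true) (PT_exch hl hZ hu hv))
theorem PT_a2 (hO : PT O) (hg : PT g) (hl : PT l) (h1 : PT m1) (h2 : PT m2)
    (hZ : PT Z) (hu : PT u) (hv : PT v) :
    PT (fun b => a2 (cc O (g b)) (l b) (m1 b) (m2 b) (Z b) (u b) (v b)) :=
  PT.and (by fun_prop) (PT_qq hO hg hl h1 h2 (PT.const false) (PT_exch hl hZ hv hu))
@[fun_prop] theorem PT_src (hB : PT B) (hu : PT u) : PT (fun b => src (B b) (u b)) := by
  unfold src; fun_prop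
@[fun_prop] theorem PT_lay0 (hl : PT l) (hB : PT B) : PT (fun b => lay0 (l b) (B b)) := by
  unfold lay0; fun_prop
end

theorem fold_sub {γ : Type} {l : List ℕ} {f : List ℕ → γ → List ℕ}
    (hf : ∀ Z x, Z.Sublist l → (f Z x).Sublist l) (l' : List γ) {Z : List ℕ} (hZ : Z.Sublist l) :
    (l'.foldl f Z).Sublist l := by
  induction l' generalizing Z with
  | nil => exact hZ
  | cons x l' ih => exact ih (hf Z x hZ)

theorem fA_sub (c : Bool → List ℕ → ℕ → Bool) (l : List ℕ) (m1 : ℕ) (i : Bool) (Z : List ℕ) (x : ℕ)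
    (hZ : Z.Sublist l) : (fA c l m1 i Z x).Sublist l := by
  unfold fA; cases c i _ _
  · exact hZ
  · exact List.filter_sublist

theorem fB_sub (c : Bool → List ℕ → ℕ → Bool) (l : List ℕ) (m2 r : ℕ) (i : Bool) (Z : List ℕ)
    (x : ℕ) (hZ : Z.Sublist l) : (fB c l m2 r i Z x).Sublist l := by
  unfold fB; cases (_ && _ && _)
  · exact hZ
  · exact List.filter_sublist

theorem phA_sub (c : Bool → List ℕ → ℕ → Bool) (l : List ℕ) (m1 : ℕ) (i : Bool) :
    (phA c l m1 i).Sublist l := fold_sub (fA_sub c l m1 i) l (List.nil_sublist _)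

theorem phB_sub (c : Bool → List ℕ → ℕ → Bool) (l : List ℕ) (m1 m2 r : ℕ) (i : Bool) :
    (phB c l m1 m2 r i).Sublist l := fold_sub (fB_sub c l m2 r i) l (phA_sub c l m1 i)

theorem grow_sub (c : Bool → List ℕ → ℕ → Bool) (l : List ℕ) (m1 m2 : ℕ) (B : List ℕ × List ℕ)
    (t : ℕ) : ((grow c l m1 m2 B)^[t] (lay0 l B)).Sublist l := by
  induction t with
  | zero => exact List.filter_sublist
  | succ t ih =>
    rw [Function.iterate_succ_apply', grow]
    cases List.any _ _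
    · exact List.filter_sublist
    · exact ih

theorem stp_sub (c : Bool → List ℕ → ℕ → Bool) (l : List ℕ) (m1 m2 : ℕ) (B : List ℕ × List ℕ)
    (h : B.1.Sublist l ∧ B.2.Sublist l) :
    (stp c l m1 m2 B).1.Sublist l ∧ (stp c l m1 m2 B).2.Sublist l := by
  unfold stp
  generalize List.filter (fun q : ℕ × ℕ => src B q.1 && a1 c l m1 m2 B.1 q.1 q.2) _ = L1
  generalize List.filter (fun q : ℕ × ℕ => src B q.1 && a2 c l m1 m2 B.2 q.1 q.2) _ = L2
  cases L1
  · cases L2
    · exact h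
    · exact ⟨h.1, List.filter_sublist⟩
  · exact ⟨List.filter_sublist, h.2⟩

theorem iter_sub (c : Bool → List ℕ → ℕ → Bool) (l : List ℕ) (m1 m2 : ℕ) (B : List ℕ × List ℕ)
    (h : B.1.Sublist l ∧ B.2.Sublist l) (t : ℕ) :
    ((stp c l m1 m2)^[t] B).1.Sublist l ∧ ((stp c l m1 m2)^[t] B).2.Sublist l := by
  induction t with
  | zero => exact h
  | succ t ih => rw [Function.iterate_succ_apply']; exact stp_sub c l m1 m2 _ ih

section
variable {O : α × Bool × List ℕ × ℕ → Bool} {g : β → α} {l Z : β → List ℕ} {m1 m2 r u v : β → ℕ}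
  {i : β → Bool} {B : β → List ℕ × List ℕ}

theorem PT_phA (hO : PT O) (hg : PT g) (hl : PT l) (h1 : PT m1) (hi : PT i) :
    PT (fun b => phA (cc O (g b)) (l b) (m1 b) (i b)) :=
  PT.foldl (F := fun b => fA (cc O (g b)) (l b) (m1 b) (i b)) (B := fun b => size (l b))
    (PT_fA hO (by fun_prop) (by fun_prop) (by fun_prop) (by fun_prop) (by fun_prop) (by fun_prop))
    (PT.const _) hl (PB.size hl)
    (fun _ _ => size_sublist (fold_sub (fA_sub _ _ _ _) _ (List.nil_sublist _)))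

theorem PT_phB (hO : PT O) (hg : PT g) (hl : PT l) (h1 : PT m1) (h2 : PT m2) (hr : PT r)
    (hi : PT i) : PT (fun b => phB (cc O (g b)) (l b) (m1 b) (m2 b) (r b) (i b)) :=
  PT.foldl (F := fun b => fB (cc O (g b)) (l b) (m2 b) (r b) (i b)) (B := fun b => size (l b))
    (PT_fB hO (by fun_prop) (by fun_prop) (by fun_prop) (by fun_prop) (by fun_prop) (by fun_prop)
      (by fun_prop))
    (PT_phA hO hg hl h1 hi) hl (PB.size hl)
    (fun _ _ => size_sublist (fold_sub (fB_sub _ _ _ _ _) _ (phA_sub _ _ _ _)))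

theorem PT_nxt (hO : PT O) (hg : PT g) (hl : PT l) (h1 : PT m1) (h2 : PT m2) (hB : PT B)
    (hZ : PT Z) : PT (fun b => nxt (cc O (g b)) (l b) (m1 b) (m2 b) (B b) (Z b)) :=
  PT.filter (PT.or (by fun_prop) (PT.any (PT.or
    (PT_a1 hO (by fun_prop) (by fun_prop) (by fun_prop) (by fun_prop) (by fun_prop) (by fun_prop)
      (by fun_prop))
    (PT_a2 hO (by fun_prop) (by fun_prop) (by fun_prop) (by fun_prop) (by fun_prop) (by fun_prop)
      (by fun_prop))) (by fun_prop))) hl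

theorem PT_grow (hO : PT O) (hg : PT g) (hl : PT l) (h1 : PT m1) (h2 : PT m2) (hB : PT B)
    (hZ : PT Z) : PT (fun b => grow (cc O (g b)) (l b) (m1 b) (m2 b) (B b) (Z b)) :=
  (PT.any (by fun_prop) (PT_nxt hO hg hl h1 h2 hB hZ)).cond hZ (PT_nxt hO hg hl h1 h2 hB hZ)

theorem PT_lay (hO : PT O) (hg : PT g) (hl : PT l) (h1 : PT m1) (h2 : PT m2) (hB : PT B) :
    PT (fun b => lay (cc O (g b)) (l b) (m1 b) (m2 b) (B b)) :=
  PT.iterate (F := fun b => grow (cc O (g b)) (l b) (m1 b) (m2 b) (B b)) (B := fun b => size (l b))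
    (PT_grow hO (by fun_prop) (by fun_prop) (by fun_prop) (by fun_prop) (by fun_prop) (by fun_prop))
    (PT_lay0 hl hB) (by fun_prop) (by fun_prop) (PB.size hl)
    (fun _ _ _ => size_sublist (grow_sub _ _ _ _ _ _))

theorem PT_stp (hO : PT O) (hg : PT g) (hl : PT l) (h1 : PT m1) (h2 : PT m2) (hB : PT B) :
    PT (fun b => stp (cc O (g b)) (l b) (m1 b) (m2 b) (B b)) :=
  PT.lcase (PT.filter (PT.and (by fun_prop)
      (PT_a1 hO (by fun_prop) (by fun_prop) (by fun_prop) (by fun_prop) (by fun_prop) (by fun_prop)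
        (by fun_prop))) (hl.product (PT_lay hO hg hl h1 h2 hB)))
    (PT.lcase (PT.filter (PT.and (by fun_prop)
      (PT_a2 hO (by fun_prop) (by fun_prop) (by fun_prop) (by fun_prop) (by fun_prop) (by fun_prop)
        (by fun_prop))) (hl.product (PT_lay hO hg hl h1 h2 hB))) hB (by fun_prop))
    (by fun_prop)

theorem PT_fin (hO : PT O) (hg : PT g) (hl : PT l) (h1 : PT m1) (h2 : PT m2) (hr : PT r) :
    PT (fun b => fin (cc O (g b)) (l b) (m1 b) (m2 b) (r b)) :=
  PT.iterate (F := fun b => stp (cc O (g b)) (l b) (m1 b) (m2 b))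
    (B := fun b => size (l b) + size (l b) + 1)
    (PT_stp hO (by fun_prop) (by fun_prop) (by fun_prop) (by fun_prop) (by fun_prop))
    ((PT_phB hO hg hl h1 h2 hr (PT.const true)).pair (PT_phB hO hg hl h1 h2 hr (PT.const false)))
    (by fun_prop) (by fun_prop) (by fun_prop)
    (fun b k _ => by
      obtain ⟨e1, e2⟩ := iter_sub (cc O (g b)) (l b) (m1 b) (m2 b)
        (phB (cc O (g b)) (l b) (m1 b) (m2 b) (r b) true,
          phB (cc O (g b)) (l b) (m1 b) (m2 b) (r b) false) ⟨phB_sub .., phB_sub ..⟩ k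
      have a1 := size_sublist e1
      have a2 := size_sublist e2
      have a3 := size_pair ((stp (cc O (g b)) (l b) (m1 b) (m2 b))^[k]
        (phB (cc O (g b)) (l b) (m1 b) (m2 b) (r b) true,
          phB (cc O (g b)) (l b) (m1 b) (m2 b) (r b) false)).1
        ((stp (cc O (g b)) (l b) (m1 b) (m2 b))^[k]
        (phB (cc O (g b)) (l b) (m1 b) (m2 b) (r b) true,
          phB (cc O (g b)) (l b) (m1 b) (m2 b) (r b) false)).2
      rw [Prod.mk.eta] at a3
      omega)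

theorem PT_answer (hO : PT O) (hg : PT g) (hl : PT l) (h1 : PT m1) (h2 : PT m2) (hr : PT r) :
    PT (fun b => answer (cc O (g b)) (l b) (m1 b) (m2 b) (r b)) := by
  have a1 := PT_phB hO hg hl h1 h2 hr (PT.const true)
  have a2 := PT_phB hO hg hl h1 h2 hr (PT.const false)
  have a3 := PT_fin hO hg hl h1 h2 hr
  refine PT.and (PT.and (PT.decide_eq a1.length hr) (PT.decide_eq a2.length hr)) (PT.all ?_ hl)
  exact PT.beq (PT.decide_mem PT.snd' (a3.comp PT.fst').fst)
    (PT.decide_mem PT.snd' (a3.comp PT.fst').snd)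

end

end Pool.Agent.H.MP_1195b1_lc
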